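import Pool.Agent.H304R6.Orders

set_option autoImplicit false

namespace Pool.Agent.H304R6

open Complex Filter Topology ComplexConjugate Polynomial
open Pool.Agent.H341R2

/-- the mean `∑ Re(χ(p) t(p) p^{-iτ}) p^{-1-ε}` -/
noncomputable def yy (t : Nat.Primes → ℂ) (k : Pair) (ε : ℝ) : ℝ :=
  E ε fun p => (k.1.2 p * t p * ((p : ℕ) : ℂ) ^ (-(k.2 * I))).re

theorem yy_bessel (t : Nat.Primes → ℂ) (b : ℝ) (ht : ∀ p, ‖t p‖ ≤ b) (F : Finset Pair)
    (hF : ∀ k ∈ F, k.1.1 ≠ 0 ∧ k.1.2.IsPrimitive) {d : ℝ} (hd : 0 < d) :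
    ∀ᶠ ε : ℝ in 𝓝[>] 0, ∑ k ∈ F, (yy t k ε) ^ 2 ≤ (b ^ 2 + d) * (lam ε) ^ 2 := by
  classical
  have hb : ∀ p, |‖t p‖ ^ 2| ≤ b ^ 2 := by
    intro p
    rw [abs_of_nonneg (sq_nonneg _)]
    exact pow_le_pow_left₀ (norm_nonneg _) (ht p) 2
  have hR' : ∀ d : ℝ, 0 < d → ∀ᶠ ε : ℝ in 𝓝[>] 0,
      E ε (fun p => ‖t p‖ ^ 2) ≤ (b ^ 2 + d) * lam ε := by
    intro d hd
    filter_upwards [self_mem_nhdsWithin] with ε hε
    have hl0 : 0 ≤ lam ε := tsum_nonneg fun p => w_nonneg ε p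
    have h1 : E ε (fun p => ‖t p‖ ^ 2) ≤ b ^ 2 * lam ε :=
      E_le hε hb fun p => (le_abs_self _).trans (hb p)
    nlinarith
  have h := bessel_near F t
    (fun (k : Pair) p => conj (k.1.2 ((p : ℕ) : ZMod k.1.1)) * ((p : ℕ) : ℂ) ^ (k.2 * I)) b
    (b ^ 2) ht
    (fun k p => by
      rw [norm_mul, Complex.norm_conj]
      have h1 : ‖((p : ℕ) : ℂ) ^ ((k.2 : ℂ) * I)‖ = 1 := by
        rw [Complex.norm_natCast_cpow_of_pos p.2.pos]
        simp
      rw [h1, mul_one]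
      exact k.1.2.norm_le_one _)
    hR' (fun k hk l hl hkl => E_orth (hF k hk).1 (hF l hl).1 (hF k hk).2 (hF l hl).2 hkl) hd
  filter_upwards [h] with ε hε
  refine le_trans (le_of_eq ?_) hε
  refine Finset.sum_congr rfl fun k _ => ?_
  congr 2
  rw [yy]
  congr 1
  funext p
  have h0 : ((p : ℕ) : ℂ) ≠ 0 := by exact_mod_cast p.2.ne_zero
  have hc : conj (((p : ℕ) : ℂ) ^ ((k.2 : ℂ) * I)) = ((p : ℕ) : ℂ) ^ (-(k.2 * I)) := by
    rw [Complex.cpow_def_of_ne_zero h0, Complex.cpow_def_of_ne_zero h0, ← Complex.exp_conj]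
    congr 1
    rw [map_mul, map_mul, Complex.conj_I, Complex.conj_ofReal, ← Complex.natCast_log,
      Complex.conj_ofReal]
    ring
  rw [map_mul, Complex.conj_conj, hc]
  congr 1
  ring

/-- abstract edge theorem -/
theorem abstract_edge (t : Nat.Primes → ℂ) (b : ℝ) (ht : ∀ p, ‖t p‖ ≤ b) (F : Finset Pair)
    (hF : ∀ k ∈ F, k.1.1 ≠ 0 ∧ k.1.2.IsPrimitive) (L : Pair → ℂ → ℂ) (c : ℂ) (D : ℝ)
    (hL : ∀ k ∈ F, ∀ ε : ℝ, 0 < ε → L k (c + ε + k.2 * I) ≠ 0 ∧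
      |Real.log ‖L k (c + ε + k.2 * I)‖ - yy t k ε| ≤ D) :
    (∀ d : ℝ, 0 < d → ∀ᶠ ε : ℝ in 𝓝[>] 0,
      ∑ k ∈ F, (Real.log ‖L k (c + ε + k.2 * I)‖) ^ 2 ≤
        (b ^ 2 + d) * (Real.log (1 / ε)) ^ 2) ∧
    ∀ Λ : Pair → ℂ → ℂ, (∀ k ∈ F, MeromorphicAt (Λ k) (c + k.2 * I)) →
      (∀ k ∈ F, ∀ᶠ s in 𝓝 (c + k.2 * I : ℂ), c.re < s.re → Λ k s = L k s) →
      ∃ r : Pair → ℤ, (∀ k ∈ F, meromorphicOrderAt (Λ k) (c + k.2 * I) = r k) ∧
        (∑ k ∈ F, (r k : ℝ) ^ 2) ≤ b ^ 2 := by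
  classical
  have hbes : ∀ d : ℝ, 0 < d → ∀ᶠ ε : ℝ in 𝓝[>] 0,
      ∑ k ∈ F, (Real.log ‖L k (c + ε + k.2 * I)‖) ^ 2 ≤
        (b ^ 2 + d) * (Real.log (1 / ε)) ^ 2 := by
    intro d hd
    exact convert_bessel F (fun k ε => yy t k ε)
      (fun k ε => Real.log ‖L k (c + ε + k.2 * I)‖) (R := b ^ 2) (D := D) (sq_nonneg b)
      (fun ε hε k hk => (hL k hk ε hε).2) (fun d hd => yy_bessel t b ht F hF hd) hd
  refine ⟨hbes, fun Λ hΛ hΛL => ?_⟩
  have h1 : ∀ k, ∃ r : ℤ, k ∈ F → meromorphicOrderAt (Λ k) (c + k.2 * I) = r ∧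
      Tendsto (fun ε : ℝ => Real.log ‖L k (c + ε + k.2 * I)‖ /
        Real.log (1 / ε)) (𝓝[>] 0) (𝓝 (-(r : ℝ))) := by
    intro k
    by_cases hk : k ∈ F
    · have hpath0 : Tendsto (fun ε : ℝ => (c + k.2 * I : ℂ) + ε) (𝓝[>] 0)
          (𝓝 (c + k.2 * I : ℂ)) := by
        have : ContinuousAt (fun ε : ℝ => (c + k.2 * I : ℂ) + (ε : ℂ)) 0 := by fun_prop
        have h2 := this.tendsto
        simp only [ofReal_zero, add_zero] at h2
        exact h2.mono_left nhdsWithin_le_nhds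
      have heq : ∀ᶠ ε : ℝ in 𝓝[>] 0,
          Λ k ((c + k.2 * I : ℂ) + ε) = L k (c + ε + k.2 * I) := by
        filter_upwards [hpath0.eventually (hΛL k hk), self_mem_nhdsWithin] with ε h1 h2
        have hε : (0 : ℝ) < ε := h2
        rw [h1 (by simp [hε])]
        congr 1
        ring
      have hfreq : ∃ᶠ z in 𝓝[≠] (c + k.2 * I : ℂ), Λ k z ≠ 0 := by
        have hpath : Tendsto (fun ε : ℝ => (c + k.2 * I : ℂ) + ε) (𝓝[>] 0)
            (𝓝[≠] (c + k.2 * I : ℂ)) := by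
          rw [tendsto_nhdsWithin_iff]
          refine ⟨hpath0, ?_⟩
          filter_upwards [self_mem_nhdsWithin] with ε hε
          have hε' : (0 : ℝ) < ε := hε
          simp only [Set.mem_compl_iff, Set.mem_singleton_iff, add_eq_left]
          exact_mod_cast hε'.ne'
        have hne : ∀ᶠ ε : ℝ in 𝓝[>] 0, Λ k ((c + k.2 * I : ℂ) + ε) ≠ 0 := by
          filter_upwards [heq, self_mem_nhdsWithin] with ε h1 h2
          rw [h1]
          exact (hL k hk ε h2).1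
        exact hpath.frequently hne.frequently
      have hnt : meromorphicOrderAt (Λ k) (c + k.2 * I) ≠ ⊤ := by
        rw [Ne, meromorphicOrderAt_eq_top_iff]
        intro h
        exact hfreq (h.mono fun z hz => not_not.2 hz)
      obtain ⟨r, hr⟩ := WithTop.ne_top_iff_exists.1 hnt
      refine ⟨r, fun _ => ⟨hr.symm, ?_⟩⟩
      obtain ⟨C, hC⟩ := log_norm_meromorphic (hΛ k hk) hr.symm
      have h1 : Tendsto (fun ε : ℝ =>
          (Real.log ‖Λ k ((c + k.2 * I : ℂ) + ε)‖ - r * Real.log ε) / Real.log (1 / ε))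
          (𝓝[>] 0) (𝓝 0) := by
        refine squeeze_zero_norm' ?_ (a := fun ε => |C| / Real.log (1 / ε)) ?_
        · filter_upwards [hC, log_inv_tendsto.eventually_gt_atTop 0] with ε h2 h3
          rw [Real.norm_eq_abs, abs_div, abs_of_pos h3]
          have := h2.2.trans (le_abs_self C)
          gcongr
        · exact log_inv_tendsto.const_div_atTop _
      have h3 : Tendsto (fun ε : ℝ =>
          (Real.log ‖Λ k ((c + k.2 * I : ℂ) + ε)‖ - r * Real.log ε) / Real.log (1 / ε) +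
            -(r : ℝ)) (𝓝[>] 0) (𝓝 (0 + -(r : ℝ))) := h1.add_const _
      rw [zero_add] at h3
      refine h3.congr' ?_
      filter_upwards [log_inv_tendsto.eventually_gt_atTop 0, heq] with ε h4 h6
      have h5 : Real.log ε = -Real.log (1 / ε) := by
        rw [one_div, Real.log_inv, neg_neg]
      rw [h5, h6]
      field_simp
      ring
    · exact ⟨0, fun h => absurd h hk⟩
  choose r hr using h1
  refine ⟨r, fun k hk => (hr k hk).1, ?_⟩
  have hlim : ∀ k ∈ F, Tendsto (fun ε : ℝ =>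
      (Real.log ‖L k (c + ε + k.2 * I)‖) ^ 2 / (Real.log (1 / ε)) ^ 2)
      (𝓝[>] 0) (𝓝 ((r k : ℝ) ^ 2)) := by
    intro k hk
    have h3 := (hr k hk).2.pow 2
    rw [neg_sq] at h3
    refine h3.congr fun ε => ?_
    rw [div_pow]
  have hsum := tendsto_finsetSum F hlim
  refine le_of_forall_pos_le_add fun d hd => ?_
  refine le_of_tendsto hsum ?_
  filter_upwards [hbes d hd, log_inv_tendsto.eventually_gt_atTop 0] with ε h1 h2
  rw [← Finset.sum_div, div_le_iff₀ (by positivity)]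
  exact h1

end Pool.Agent.H304R6
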