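import Pool.Agent.H304R6.Main

set_option autoImplicit false

namespace Pool.Agent.H304R6

open Complex Filter Topology ComplexConjugate Polynomial
open Pool.Agent.H341R2

variable {G : Type*} [Group G] {m : ℕ} {ρ : G →* GL (Fin m) ℂ} {A : Nat.Primes → G}
  {S : Finset Nat.Primes} {w : ℝ}

open Classical in
theorem converges (hA : ∀ p ∉ S, ∀ α ∈ (mat ρ A p).charpoly.roots, ‖α‖ ≤ (p : ℝ) ^ w)
    {N : ℕ} (χ : DirichletCharacter ℂ N) {s : ℂ} (hs : 1 + w < s.re) :
    (Multipliable fun p : Nat.Primes => if p ∈ S then (1 : ℂ) else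
      (Matrix.det (1 - (χ p * ((p : ℕ) : ℂ) ^ (-s)) • mat ρ A p))⁻¹) ∧
      twistL ρ A S χ s ≠ 0 := by
  set ε : ℝ := s.re - (1 + w) with hε
  have hε0 : 0 < ε := by rw [hε]; linarith
  have hsε : s = 1 + w + ε + s.im * I := by
    apply Complex.ext
    · simp [hε]
    · simp
  have hfin : {p : Nat.Primes | ¬ (p ∉ S)}.Finite := by
    refine S.finite_toSet.subset fun p hp => ?_
    simpa using hp
  have hIone : ∀ p : Nat.Primes, ‖((p : ℕ) : ℂ) ^ (-((s.im : ℝ) * I))‖ = 1 := by
    intro p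
    rw [norm_prime_cpow]
    simp
  obtain ⟨h1, -⟩ := summable_and_bound (Good := fun p => p ∉ S) hε0
    (fun p => logF ρ A χ p (1 + w + ε + s.im * I))
    (fun p => χ p * tr ρ A S w p * ((p : ℕ) : ℂ) ^ (-((s.im : ℝ) * I))) (C := m) (K := m)
    (fun p => by
      rw [norm_mul, norm_mul, hIone, mul_one]
      calc ‖χ p‖ * ‖tr ρ A S w p‖ ≤ 1 * m :=
            mul_le_mul (χ.norm_le_one _) (norm_tr_le hA p) (norm_nonneg _) zero_le_one
        _ = m := one_mul _)
    (fun p hp => by
      have : tr ρ A S w p = 0 := by rw [tr, if_pos (not_not.1 hp)]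
      simp only [this, mul_zero, zero_mul])
    (fun p hp => logF_sub_le hA χ hp s.im hε0)
  constructor
  · have h2 := h1.hasSum.cexp.multipliable
    refine h2.congr fun p => ?_
    rw [Function.comp_apply]
    by_cases hp : p ∈ S
    · simp [hp]
    · rw [if_neg hp, if_pos hp, exp_logF hA χ hp (by rw [← hsε]; exact hs.le), ← hsε]
  · rw [hsε]
    exact (near hA χ s.im hε0).1

end Pool.Agent.H304R6
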