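import Mathlib

/-! The Euler product attached to conjugacy classes `A_p` of a group, a representation `ρ` and a
Dirichlet character. -/

set_option autoImplicit false

namespace Pool.Agent.H304R6

/-- the matrix `ρ(A_p)` -/
def mat {G : Type*} [Group G] {m : ℕ} (ρ : G →* GL (Fin m) ℂ) (A : Nat.Primes → G)
    (p : Nat.Primes) : Matrix (Fin m) (Fin m) ℂ :=
  (ρ (A p) : Matrix (Fin m) (Fin m) ℂ)

open Classical in
/-- the Euler product `∏_{p ∉ S} det(1 - χ(p) ρ(A_p) p^{-s})⁻¹` -/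
noncomputable def twistL {G : Type*} [Group G] {m : ℕ} (ρ : G →* GL (Fin m) ℂ)
    (A : Nat.Primes → G) (S : Finset Nat.Primes) {N : ℕ} (χ : DirichletCharacter ℂ N)
    (s : ℂ) : ℂ :=
  ∏' p : Nat.Primes, if p ∈ S then 1 else
    (Matrix.det (1 - (χ p * ((p : ℕ) : ℂ) ^ (-s)) • mat ρ A p))⁻¹

open Classical in
/-- the mean square of the traces `tr ρ(A_p) p^{-w}`, `p ∉ S`, is at most `R`, in the sense of
logarithmic density of primes:
`∑_{p ∉ S} |tr ρ(A_p)|² p^{-2w-1-ε} ≤ (R + δ) log(1/ε)` for all small `ε > 0`, for each `δ > 0` -/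
def MeanSquareLe {G : Type*} [Group G] {m : ℕ} (ρ : G →* GL (Fin m) ℂ)
    (A : Nat.Primes → G) (S : Finset Nat.Primes) (w R : ℝ) : Prop :=
  ∀ δ : ℝ, 0 < δ → ∀ᶠ ε : ℝ in nhdsWithin 0 (Set.Ioi 0),
    ∑' p : Nat.Primes, (if p ∈ S then 0 else
      ‖(mat ρ A p).trace‖ ^ 2 * (p : ℝ) ^ (-(2 * w + 1 + ε))) ≤ (R + δ) * Real.log (1 / ε)

end Pool.Agent.H304R6
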