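import Pool.Agent.H341R2.EulerProd

/-! Euler products `∏ det(1 - χ(p) ρ(A_p) p^{-s})⁻¹` near the edge of absolute convergence. -/

set_option autoImplicit false

namespace Pool.Agent.H304R6

open Complex Filter Topology ComplexConjugate Polynomial
open Pool.Agent.H341R2

/-- Bessel's inequality at a fixed `ε`, with free coefficients. -/
theorem bessel_eps {κ : Type*} [DecidableEq κ] (K : Finset κ) (t : Nat.Primes → ℂ)
    (v : κ → Nat.Primes → ℂ) (c : κ → ℝ) (b : ℝ) (ht : ∀ p, ‖t p‖ ≤ b) (hv : ∀ k p, ‖v k p‖ ≤ 1)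
    {ε : ℝ} (hε : 0 < ε) (Co : κ → κ → ℝ)
    (h1 : ∀ k ∈ K, ∀ l ∈ K, k ≠ l → |E ε fun p => (v k p * conj (v l p)).re| ≤ Co k l) :
    0 ≤ E ε (fun p => ‖t p‖ ^ 2) + 2 * ∑ k ∈ K, c k * (E ε fun p => (t p * conj (v k p)).re) +
      (∑ k ∈ K, (c k) ^ 2) * lam ε + ∑ k ∈ K, ∑ l ∈ K, |c k * c l| * |Co k l| := by
  classical
  have hlam : 0 ≤ lam ε := tsum_nonneg fun p => w_nonneg ε p
  have hb0 : 0 ≤ b := (norm_nonneg _).trans (ht ⟨2, Nat.prime_two⟩)
  have hpt : ∀ p, ‖t p + ∑ k ∈ K, (c k : ℂ) * v k p‖ ^ 2 =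
      ‖t p‖ ^ 2 + (∑ k ∈ K, 2 * (c k * (t p * conj (v k p)).re) +
        ∑ k ∈ K, ∑ l ∈ K, (c k * c l) * (v k p * conj (v l p)).re) := by
    intro p
    have e1 : ‖t p + ∑ k ∈ K, (c k : ℂ) * v k p‖ ^ 2 =
        ((t p + ∑ k ∈ K, (c k : ℂ) * v k p) * conj (t p + ∑ k ∈ K, (c k : ℂ) * v k p)).re := by
      rw [Complex.mul_conj, Complex.ofReal_re, Complex.normSq_eq_norm_sq]
    have e2 : ‖t p‖ ^ 2 = (t p * conj (t p)).re := by
      rw [Complex.mul_conj, Complex.ofReal_re, Complex.normSq_eq_norm_sq]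
    have e3 : ((∑ k ∈ K, (c k : ℂ) * v k p) * conj (t p)).re =
        (t p * conj (∑ k ∈ K, (c k : ℂ) * v k p)).re := by
      rw [← Complex.conj_re, map_mul, Complex.conj_conj, mul_comm]
    have e4 : (t p * conj (∑ k ∈ K, (c k : ℂ) * v k p)).re =
        ∑ k ∈ K, c k * (t p * conj (v k p)).re := by
      rw [map_sum, Finset.mul_sum, Complex.re_sum]
      refine Finset.sum_congr rfl fun k _ => ?_
      rw [map_mul, Complex.conj_ofReal, mul_left_comm, Complex.re_ofReal_mul]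
    have e5 : ((∑ k ∈ K, (c k : ℂ) * v k p) * conj (∑ k ∈ K, (c k : ℂ) * v k p)).re =
        ∑ k ∈ K, ∑ l ∈ K, (c k * c l) * (v k p * conj (v l p)).re := by
      rw [map_sum, Finset.sum_mul_sum, Complex.re_sum]
      refine Finset.sum_congr rfl fun k _ => ?_
      rw [Complex.re_sum]
      refine Finset.sum_congr rfl fun l _ => ?_
      rw [map_mul, Complex.conj_ofReal]
      have : (c k : ℂ) * v k p * ((c l : ℂ) * conj (v l p)) =
          ((c k * c l : ℝ) : ℂ) * (v k p * conj (v l p)) := by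
        push_cast; ring
      rw [this, Complex.re_ofReal_mul]
    rw [e1, map_add, add_mul, mul_add, mul_add, Complex.add_re, Complex.add_re, Complex.add_re,
      e3, e4, e5, e2, ← Finset.mul_sum]
    ring
  have hbt : ∀ p, |‖t p‖ ^ 2| ≤ b ^ 2 := by
    intro p
    rw [abs_of_nonneg (sq_nonneg _)]
    exact pow_le_pow_left₀ (norm_nonneg _) (ht p) 2
  have hb1 : ∀ k p, |(t p * conj (v k p)).re| ≤ b := by
    intro k p
    refine (Complex.abs_re_le_norm _).trans ?_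
    rw [norm_mul, Complex.norm_conj]
    calc ‖t p‖ * ‖v k p‖ ≤ b * 1 := mul_le_mul (ht p) (hv k p) (norm_nonneg _) hb0
      _ = b := mul_one b
  have hb2 : ∀ k l p, |(v k p * conj (v l p)).re| ≤ 1 := by
    intro k l p
    refine (Complex.abs_re_le_norm _).trans ?_
    rw [norm_mul, Complex.norm_conj]
    exact mul_le_one₀ (hv k p) (norm_nonneg _) (hv l p)
  have hb1' : ∀ k p, |2 * (c k * (t p * conj (v k p)).re)| ≤ 2 * (|c k| * b) := by
    intro k p
    rw [abs_mul, abs_mul, abs_two]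
    gcongr
    exact hb1 k p
  have hb2' : ∀ k l p, |c k * c l * (v k p * conj (v l p)).re| ≤ |c k * c l| * 1 := by
    intro k l p
    rw [abs_mul]
    gcongr
    exact hb2 k l p
  have hS2 : ∀ k p, |∑ l ∈ K, c k * c l * (v k p * conj (v l p)).re| ≤
      ∑ l ∈ K, |c k * c l| * 1 := fun k p =>
    (Finset.abs_sum_le_sum_abs _ _).trans (Finset.sum_le_sum fun l _ => hb2' k l p)
  have hexp : E ε (fun p => ‖t p + ∑ k ∈ K, (c k : ℂ) * v k p‖ ^ 2) =
      E ε (fun p => ‖t p‖ ^ 2) + (∑ k ∈ K, 2 * (c k * E ε fun p => (t p * conj (v k p)).re) +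
        ∑ k ∈ K, ∑ l ∈ K, (c k * c l) * E ε fun p => (v k p * conj (v l p)).re) := by
    have s1 : ∀ p, |∑ k ∈ K, 2 * (c k * (t p * conj (v k p)).re)| ≤
        ∑ k ∈ K, 2 * (|c k| * b) := fun p =>
      (Finset.abs_sum_le_sum_abs _ _).trans (Finset.sum_le_sum fun k _ => hb1' k p)
    have s2 : ∀ p, |∑ k ∈ K, ∑ l ∈ K, (c k * c l) * (v k p * conj (v l p)).re| ≤
        ∑ k ∈ K, ∑ l ∈ K, |c k * c l| * 1 := fun p =>
      (Finset.abs_sum_le_sum_abs _ _).trans (Finset.sum_le_sum fun k _ => hS2 k p)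
    rw [funext hpt, E_add hε hbt (B' := ∑ k ∈ K, 2 * (|c k| * b) +
      ∑ k ∈ K, ∑ l ∈ K, |c k * c l| * 1)
      (fun p => (abs_add_le _ _).trans (add_le_add (s1 p) (s2 p))), E_add hε s1 s2,
      E_sum hε K _ (fun k => 2 * (|c k| * b)) (fun k _ p => hb1' k p),
      E_sum hε K _ (fun k => ∑ l ∈ K, |c k * c l| * 1) (fun k _ p => hS2 k p)]
    congr 2
    · refine Finset.sum_congr rfl fun k _ => ?_
      rw [E_const_mul, E_const_mul]
    · refine Finset.sum_congr rfl fun k _ => ?_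
      rw [E_sum hε K _ (fun l => |c k * c l| * 1) (fun l _ p => hb2' k l p)]
      refine Finset.sum_congr rfl fun l _ => ?_
      rw [E_const_mul]
  have hpos : 0 ≤ E ε (fun p => ‖t p + ∑ k ∈ K, (c k : ℂ) * v k p‖ ^ 2) :=
    E_nonneg fun p => sq_nonneg _
  rw [hexp] at hpos
  have hCC : ∑ k ∈ K, ∑ l ∈ K, (c k * c l) * (E ε fun p => (v k p * conj (v l p)).re) ≤
      ∑ k ∈ K, ((c k) ^ 2 * lam ε + ∑ l ∈ K, |c k * c l| * |Co k l|) := by
    refine Finset.sum_le_sum fun k hk => ?_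
    rw [← Finset.add_sum_erase K _ hk, ← Finset.add_sum_erase K (fun l => |c k * c l| * |Co k l|) hk]
    have d1 : (c k * c k) * (E ε fun p => (v k p * conj (v k p)).re) ≤ (c k) ^ 2 * lam ε := by
      rw [← sq]
      refine mul_le_mul_of_nonneg_left ?_ (sq_nonneg _)
      have := E_le hε (hb2 k k) (b := 1) fun p => (le_abs_self _).trans (hb2 k k p)
      linarith
    have d2 : ∑ l ∈ K.erase k, (c k * c l) * (E ε fun p => (v k p * conj (v l p)).re) ≤
        ∑ l ∈ K.erase k, |c k * c l| * |Co k l| := by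
      refine Finset.sum_le_sum fun l hl => ?_
      rw [Finset.mem_erase] at hl
      refine (le_abs_self _).trans ?_
      rw [abs_mul]
      refine mul_le_mul_of_nonneg_left ?_ (abs_nonneg _)
      exact (h1 k hk l hl.2 (Ne.symm hl.1)).trans (le_abs_self _)
    have d3 : 0 ≤ |c k * c k| * |Co k k| := by positivity
    linarith
  have e7 : ∑ k ∈ K, ((c k) ^ 2 * lam ε + ∑ l ∈ K, |c k * c l| * |Co k l|) =
      (∑ k ∈ K, (c k) ^ 2) * lam ε + ∑ k ∈ K, ∑ l ∈ K, |c k * c l| * |Co k l| := by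
    rw [Finset.sum_add_distrib, ← Finset.sum_mul]
  rw [e7] at hCC
  rw [← Finset.mul_sum] at hpos
  linarith

/-- Bessel's inequality for the means `x_k(ε) = E ε (Re t v̄_k)`. -/
theorem bessel_near {κ : Type*} [DecidableEq κ] (K : Finset κ) (t : Nat.Primes → ℂ)
    (v : κ → Nat.Primes → ℂ) (b R : ℝ) (ht : ∀ p, ‖t p‖ ≤ b) (hv : ∀ k p, ‖v k p‖ ≤ 1)
    (hR : ∀ δ : ℝ, 0 < δ → ∀ᶠ ε : ℝ in 𝓝[>] 0, E ε (fun p => ‖t p‖ ^ 2) ≤ (R + δ) * lam ε)
    (horth : ∀ k ∈ K, ∀ l ∈ K, k ≠ l → ∃ C : ℝ, ∀ᶠ ε : ℝ in 𝓝[>] 0,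
      |E ε fun p => (v k p * conj (v l p)).re| ≤ C) {δ : ℝ} (hδ : 0 < δ) :
    ∀ᶠ ε : ℝ in 𝓝[>] 0,
      ∑ k ∈ K, (E ε fun p => (t p * conj (v k p)).re) ^ 2 ≤ (R + δ) * (lam ε) ^ 2 := by
  classical
  have horth' : ∀ k l : κ, ∃ C : ℝ, k ∈ K → l ∈ K → k ≠ l → ∀ᶠ ε : ℝ in 𝓝[>] 0,
      |E ε fun p => (v k p * conj (v l p)).re| ≤ C := by
    intro k l
    by_cases h : k ∈ K ∧ l ∈ K ∧ k ≠ l
    · obtain ⟨C, hC⟩ := horth k h.1 l h.2.1 h.2.2
      exact ⟨C, fun _ _ _ => hC⟩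
    · exact ⟨0, fun h1 h2 h3 => absurd ⟨h1, h2, h3⟩ h⟩
  choose Co hCo using horth'
  have ev1 : ∀ᶠ ε : ℝ in 𝓝[>] 0, ∀ k ∈ K, ∀ l ∈ K, k ≠ l →
      |E ε fun p => (v k p * conj (v l p)).re| ≤ Co k l := by
    rw [Filter.eventually_all_finset]
    intro k hk
    rw [Filter.eventually_all_finset]
    intro l hl
    by_cases hkl : k = l
    · exact Filter.Eventually.of_forall fun _ h => absurd hkl h
    · filter_upwards [hCo k l hk hl hkl] with ε h _
      exact h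
  have hb0 : 0 ≤ b := (norm_nonneg _).trans (ht ⟨2, Nat.prime_two⟩)
  set D : ℝ := ∑ k ∈ K, ∑ l ∈ K, (b * b) * |Co k l| with hD
  have hD0 : 0 ≤ D := by
    rw [hD]
    exact Finset.sum_nonneg fun k _ => Finset.sum_nonneg fun l _ => by positivity
  have hbig : ∀ᶠ ε : ℝ in 𝓝[>] 0, D * 2 / δ + 1 ≤ lam ε :=
    lam_tendsto.eventually_ge_atTop _
  filter_upwards [ev1, hR (δ / 2) (by positivity), hbig, self_mem_nhdsWithin] with ε h1 h2 h3 h4
  have hε : (0 : ℝ) < ε := h4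
  have hl0 : 0 < lam ε := by
    have : 0 ≤ D * 2 / δ := by positivity
    linarith
  set x : κ → ℝ := fun k => E ε fun p => (t p * conj (v k p)).re with hx
  have hxb : ∀ k, |x k| ≤ b * lam ε := by
    intro k
    have hb1 : ∀ p, |(t p * conj (v k p)).re| ≤ b := by
      intro p
      refine (Complex.abs_re_le_norm _).trans ?_
      rw [norm_mul, Complex.norm_conj]
      calc ‖t p‖ * ‖v k p‖ ≤ b * 1 := mul_le_mul (ht p) (hv k p) (norm_nonneg _) hb0
        _ = b := mul_one b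
    rw [abs_le]
    constructor
    · have h5 : E ε (fun p => (-1 : ℝ) * (t p * conj (v k p)).re) ≤ b * lam ε := by
        refine E_le hε (B := b) (fun p => ?_) (fun p => ?_)
        · rw [abs_mul, abs_neg, abs_one, one_mul]
          exact hb1 p
        · have := (abs_le.1 (hb1 p)).1
          linarith
      rw [E_const_mul] at h5
      show -(b * lam ε) ≤ E ε fun p => (t p * conj (v k p)).re
      linarith
    · exact E_le hε hb1 fun p => (le_abs_self _).trans (hb1 p)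
  have key := bessel_eps K t v (fun k => -(x k) / lam ε) b ht hv hε Co h1
  have e1 : ∑ k ∈ K, -(x k) / lam ε * (E ε fun p => (t p * conj (v k p)).re) =
      -(∑ k ∈ K, (x k) ^ 2) / lam ε := by
    rw [← Finset.sum_neg_distrib, Finset.sum_div]
    refine Finset.sum_congr rfl fun k _ => ?_
    show -(x k) / lam ε * x k = -(x k) ^ 2 / lam ε
    ring
  have e2 : (∑ k ∈ K, (-(x k) / lam ε) ^ 2) * lam ε = (∑ k ∈ K, (x k) ^ 2) / lam ε := by
    rw [Finset.sum_mul, Finset.sum_div]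
    refine Finset.sum_congr rfl fun k _ => ?_
    field_simp
  have e3 : ∑ k ∈ K, ∑ l ∈ K, |(-(x k) / lam ε) * (-(x l) / lam ε)| * |Co k l| ≤ D := by
    rw [hD]
    refine Finset.sum_le_sum fun k _ => Finset.sum_le_sum fun l _ => ?_
    refine mul_le_mul_of_nonneg_right ?_ (abs_nonneg _)
    rw [abs_mul, abs_div, abs_div, abs_neg, abs_neg, abs_of_pos hl0]
    refine mul_le_mul ?_ ?_ (by positivity) hb0
    · rw [div_le_iff₀ hl0]; exact hxb k
    · rw [div_le_iff₀ hl0]; exact hxb l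
  rw [e1, e2] at key
  have h5 : (∑ k ∈ K, (x k) ^ 2) / lam ε ≤ (R + δ / 2) * lam ε + D := by
    have e4 : 2 * (-(∑ k ∈ K, (x k) ^ 2) / lam ε) = -2 * ((∑ k ∈ K, (x k) ^ 2) / lam ε) := by ring
    rw [e4] at key
    linarith
  rw [div_le_iff₀ hl0] at h5
  have h6 : D ≤ δ / 2 * lam ε := by
    have h7 : D * 2 / δ ≤ lam ε := by linarith
    rw [div_le_iff₀ hδ] at h7
    linarith
  calc ∑ k ∈ K, (x k) ^ 2 ≤ ((R + δ / 2) * lam ε + D) * lam ε := h5
    _ ≤ ((R + δ / 2) * lam ε + δ / 2 * lam ε) * lam ε := by gcongr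
    _ = (R + δ) * (lam ε) ^ 2 := by ring

end Pool.Agent.H304R6
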