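import Pool.Agent.H304R6.Defs
import Pool.Agent.H304R6.Edge

set_option autoImplicit false

namespace Pool.Agent.H304R6

open Complex Filter Topology ComplexConjugate Polynomial
open Pool.Agent.H341R2

theorem card_roots_charpoly {m : ℕ} (M : Matrix (Fin m) (Fin m) ℂ) :
    Multiset.card M.charpoly.roots = m := by
  have h := (IsAlgClosed.splits M.charpoly).natDegree_eq_card_roots
  rw [Matrix.charpoly_natDegree_eq_dim, Fintype.card_fin] at h
  exact h.symm

theorem det_one_sub_smul {m : ℕ} (M : Matrix (Fin m) (Fin m) ℂ) (z : ℂ) :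
    Matrix.det (1 - z • M) = (M.charpoly.roots.map fun α => 1 - z * α).prod := by
  have hcard := card_roots_charpoly M
  by_cases hz : z = 0
  · subst hz
    simp
  · have h1 : (1 : Matrix (Fin m) (Fin m) ℂ) - z • M =
        z • (Matrix.scalar (Fin m) z⁻¹ - M) := by
      rw [smul_sub]
      congr 1
      ext i j
      simp [Matrix.scalar_apply, Matrix.diagonal_apply, Matrix.one_apply, hz]
    rw [h1, Matrix.det_smul, ← Matrix.eval_charpoly,
      (IsAlgClosed.splits M.charpoly).eval_eq_prod_roots_of_monic (Matrix.charpoly_monic M),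
      Fintype.card_fin]
    have h2 : ∀ s : Multiset ℂ, z ^ (Multiset.card s) * (s.map fun a => z⁻¹ - a).prod =
        (s.map fun a => 1 - z * a).prod := by
      intro s
      induction s using Multiset.induction_on with
      | empty => simp
      | cons a s ih =>
        rw [Multiset.card_cons, Multiset.map_cons, Multiset.prod_cons, Multiset.map_cons,
          Multiset.prod_cons, ← ih, pow_succ]
        have : z * (z⁻¹ - a) = 1 - z * a := by
          rw [mul_sub, mul_inv_cancel₀ hz]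
        rw [← this]
        ring
    rw [← h2, hcard]

variable {G : Type*} [Group G] {m : ℕ} (ρ : G →* GL (Fin m) ℂ) (A : Nat.Primes → G)
  (S : Finset Nat.Primes) (w : ℝ)

open Classical in
/-- normalized trace, zero on `S` -/
noncomputable def tr (p : Nat.Primes) : ℂ :=
  if p ∈ S then 0 else (mat ρ A p).trace * (((p : ℝ) ^ (-w) : ℝ) : ℂ)

/-- logarithm of the Euler factor -/
noncomputable def logF {N : ℕ} (χ : DirichletCharacter ℂ N) (p : Nat.Primes) (s : ℂ) : ℂ :=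
  ((mat ρ A p).charpoly.roots.map fun α =>
    -Complex.log (1 - (χ p * ((p : ℕ) : ℂ) ^ (-s)) * α)).sum

variable {ρ A S w}

theorem norm_sum_le_card (s : Multiset ℂ) (f : ℂ → ℂ) (B : ℝ) (h : ∀ a ∈ s, ‖f a‖ ≤ B) :
    ‖(s.map f).sum‖ ≤ Multiset.card s * B := by
  induction s using Multiset.induction_on with
  | empty => simp
  | cons a s ih =>
    rw [Multiset.map_cons, Multiset.sum_cons, Multiset.card_cons]
    push_cast
    refine (norm_add_le _ _).trans ?_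
    have h1 := h a (Multiset.mem_cons_self a s)
    have h2 := ih fun b hb => h b (Multiset.mem_cons_of_mem hb)
    linarith

theorem norm_tr_le (hA : ∀ p ∉ S, ∀ α ∈ (mat ρ A p).charpoly.roots, ‖α‖ ≤ (p : ℝ) ^ w)
    (p : Nat.Primes) : ‖tr ρ A S w p‖ ≤ m := by
  classical
  have hp0 : (0 : ℝ) < p := by exact_mod_cast p.2.pos
  rw [tr]
  split_ifs with h
  · simp
  · rw [Matrix.trace_eq_sum_roots_charpoly, norm_mul, Complex.norm_real, Real.norm_eq_abs,
      abs_of_pos (Real.rpow_pos_of_pos hp0 _)]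
    have h1 := norm_sum_le_card (mat ρ A p).charpoly.roots id ((p : ℝ) ^ w) (fun a ha => hA p h a ha)
    rw [Multiset.map_id, card_roots_charpoly] at h1
    calc ‖(mat ρ A p).charpoly.roots.sum‖ * (p : ℝ) ^ (-w)
        ≤ (m * (p : ℝ) ^ w) * (p : ℝ) ^ (-w) := by gcongr
      _ = m := by
          rw [mul_assoc, ← Real.rpow_add hp0, add_neg_cancel, Real.rpow_zero, mul_one]

theorem norm_z_le (hA : ∀ p ∉ S, ∀ α ∈ (mat ρ A p).charpoly.roots, ‖α‖ ≤ (p : ℝ) ^ w)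
    {N : ℕ} (χ : DirichletCharacter ℂ N) {p : Nat.Primes} (hp : p ∉ S) {s : ℂ}
    (hs : 1 + w ≤ s.re) {α : ℂ} (hα : α ∈ (mat ρ A p).charpoly.roots) :
    ‖(χ p * ((p : ℕ) : ℂ) ^ (-s)) * α‖ ≤ (p : ℝ) ^ (-1 : ℝ) := by
  have hp0 : (0 : ℝ) < p := by exact_mod_cast p.2.pos
  have hp1 : (1 : ℝ) ≤ p := by exact_mod_cast p.2.one_lt.le
  rw [norm_mul, norm_mul, norm_prime_cpow]
  calc ‖χ p‖ * (p : ℝ) ^ (-s.re) * ‖α‖ ≤ 1 * (p : ℝ) ^ (-s.re) * (p : ℝ) ^ w := by
        gcongr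
        · exact χ.norm_le_one _
        · exact hA p hp α hα
    _ = (p : ℝ) ^ (-s.re + w) := by rw [one_mul, Real.rpow_add hp0]
    _ ≤ (p : ℝ) ^ (-1 : ℝ) := Real.rpow_le_rpow_of_exponent_le hp1 (by linarith)

theorem exp_logF (hA : ∀ p ∉ S, ∀ α ∈ (mat ρ A p).charpoly.roots, ‖α‖ ≤ (p : ℝ) ^ w)
    {N : ℕ} (χ : DirichletCharacter ℂ N) {p : Nat.Primes} (hp : p ∉ S) {s : ℂ}
    (hs : 1 + w ≤ s.re) :
    Complex.exp (logF ρ A χ p s) =
      (Matrix.det (1 - (χ p * ((p : ℕ) : ℂ) ^ (-s)) • mat ρ A p))⁻¹ := by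
  rw [det_one_sub_smul, logF, Complex.exp_multiset_sum, Multiset.map_map]
  have h2 : (p : ℝ) ^ (-1 : ℝ) ≤ 1 / 2 := prime_rpow_le_two le_rfl
  have h3 : ∀ α ∈ (mat ρ A p).charpoly.roots,
      (1 - (χ p * ((p : ℕ) : ℂ) ^ (-s)) * α) ≠ 0 := by
    intro α hα h
    have h4 : (χ p * ((p : ℕ) : ℂ) ^ (-s)) * α = 1 := by linear_combination -h
    have h1 := norm_z_le hA χ hp hs hα
    rw [h4, norm_one] at h1
    linarith
  rw [← Multiset.prod_map_inv]
  congr 1
  refine Multiset.map_congr rfl fun α hα => ?_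
  rw [Function.comp_apply, Complex.exp_neg, Complex.exp_log (h3 α hα)]

theorem logF_sub_le (hA : ∀ p ∉ S, ∀ α ∈ (mat ρ A p).charpoly.roots, ‖α‖ ≤ (p : ℝ) ^ w)
    {N : ℕ} (χ : DirichletCharacter ℂ N) {p : Nat.Primes} (hp : p ∉ S) (τ : ℝ) {ε : ℝ}
    (hε : 0 < ε) :
    ‖logF ρ A χ p (1 + w + ε + τ * I) -
      (χ p * tr ρ A S w p * ((p : ℕ) : ℂ) ^ (-(τ * I))) * ((p : ℝ) ^ (-(1 + ε)) : ℝ)‖ ≤
      m * (p : ℝ) ^ (-2 : ℝ) := by
  classical
  set s : ℂ := 1 + w + ε + τ * I with hs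
  have hp0 : (0 : ℝ) < p := by exact_mod_cast p.2.pos
  have hpc : ((p : ℕ) : ℂ) ≠ 0 := by exact_mod_cast p.2.ne_zero
  have hsre : 1 + w ≤ s.re := by
    rw [hs]
    simp
    linarith
  have h1 : (χ p * tr ρ A S w p * ((p : ℕ) : ℂ) ^ (-(τ * I))) * ((p : ℝ) ^ (-(1 + ε)) : ℝ) =
      ((mat ρ A p).charpoly.roots.map fun α => (χ p * ((p : ℕ) : ℂ) ^ (-s)) * α).sum := by
    rw [tr, if_neg hp, Matrix.trace_eq_sum_roots_charpoly, Multiset.sum_map_mul_left,
      Multiset.map_id']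
    have h2 : ((p : ℕ) : ℂ) ^ (-s) = (((p : ℝ) ^ (-w) : ℝ) : ℂ) *
        (((p : ℕ) : ℂ) ^ (-(τ * I))) * ((p : ℝ) ^ (-(1 + ε)) : ℝ) := by
      rw [Complex.ofReal_cpow hp0.le, Complex.ofReal_cpow hp0.le]
      push_cast
      rw [← Complex.cpow_add _ _ hpc, ← Complex.cpow_add _ _ hpc]
      congr 1
      rw [hs]
      ring
    rw [h2]
    ring
  rw [h1, logF, ← Multiset.sum_map_sub]
  have h5 := norm_sum_le_card (mat ρ A p).charpoly.roots
    (fun α => -Complex.log (1 - (χ p * ((p : ℕ) : ℂ) ^ (-s)) * α) -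
      (χ p * ((p : ℕ) : ℂ) ^ (-s)) * α) ((p : ℝ) ^ (-2 : ℝ)) (fun α hα => by
        have h3 := norm_z_le hA χ hp hsre hα
        have h4 : (p : ℝ) ^ (-1 : ℝ) ≤ 1 / 2 := prime_rpow_le_two le_rfl
        refine (norm_neg_log_sub_le (h3.trans h4)).trans ?_
        calc ‖(χ p * ((p : ℕ) : ℂ) ^ (-s)) * α‖ ^ 2 ≤ ((p : ℝ) ^ (-1 : ℝ)) ^ 2 := by gcongr
          _ = (p : ℝ) ^ (-2 : ℝ) := by
              rw [← Real.rpow_natCast, ← Real.rpow_mul hp0.le]
              norm_num)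
  rwa [card_roots_charpoly] at h5

end Pool.Agent.H304R6
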