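import Pool.Agent.H304R6.Near

set_option autoImplicit false

namespace Pool.Agent.H304R6

open Complex Filter Topology ComplexConjugate Polynomial
open Pool.Agent.H341R2

variable {G : Type*} [Group G] {m : ℕ} {ρ : G →* GL (Fin m) ℂ} {A : Nat.Primes → G}
  {S : Finset Nat.Primes} {w : ℝ}

theorem xx_bessel (hA : ∀ p ∉ S, ∀ α ∈ (mat ρ A p).charpoly.roots, ‖α‖ ≤ (p : ℝ) ^ w)
    {R : ℝ} (hR : MeanSquareLe ρ A S w R) (F : Finset Pair)
    (hF : ∀ k ∈ F, k.1.1 ≠ 0 ∧ k.1.2.IsPrimitive) {δ : ℝ} (hδ : 0 < δ) :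
    ∀ᶠ ε : ℝ in 𝓝[>] 0, ∑ k ∈ F, (xx ρ A S w k.1.2 k.2 ε) ^ 2 ≤ (R + δ) * (lam ε) ^ 2 := by
  classical
  have hR0 := nonneg_of_meanSquareLe hR
  have hR' : ∀ δ : ℝ, 0 < δ → ∀ᶠ ε : ℝ in 𝓝[>] 0,
      E ε (fun p => ‖tr ρ A S w p‖ ^ 2) ≤ (R + δ) * lam ε := by
    intro δ hδ
    obtain ⟨C, hC⟩ := lam_bounded
    filter_upwards [hC, hR (δ / 2) (by positivity),
      lam_tendsto.eventually_ge_atTop ((R + δ / 2) * |C| * 2 / δ)] with ε h1 h2 h3
    rw [E_eq]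
    have h5 : Real.log (1 / ε) ≤ lam ε + |C| := by
      rw [one_div, Real.log_inv]
      have := (abs_le.1 h1).1
      linarith [le_abs_self C]
    rw [div_le_iff₀ hδ] at h3
    calc _ ≤ (R + δ / 2) * Real.log (1 / ε) := h2
      _ ≤ (R + δ / 2) * (lam ε + |C|) := by
          have : 0 ≤ R + δ / 2 := by positivity
          gcongr
      _ ≤ (R + δ) * lam ε := by linarith
  have h := bessel_near F (tr ρ A S w)
    (fun (k : Pair) p => conj (k.1.2 ((p : ℕ) : ZMod k.1.1)) * ((p : ℕ) : ℂ) ^ (k.2 * I)) m R (norm_tr_le hA)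
    (fun k p => by
      rw [norm_mul, Complex.norm_conj]
      have h1 : ‖((p : ℕ) : ℂ) ^ ((k.2 : ℂ) * I)‖ = 1 := by
        rw [Complex.norm_natCast_cpow_of_pos p.2.pos]
        simp
      rw [h1, mul_one]
      exact k.1.2.norm_le_one _)
    hR' (fun k hk l hl hkl => E_orth (hF k hk).1 (hF l hl).1 (hF k hk).2 (hF l hl).2 hkl) hδ
  filter_upwards [h] with ε hε
  refine le_trans (le_of_eq ?_) hε
  refine Finset.sum_congr rfl fun k _ => ?_
  congr 2
  rw [xx]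
  congr 1
  funext p
  have h0 : ((p : ℕ) : ℂ) ≠ 0 := by exact_mod_cast p.2.ne_zero
  have hc : conj (((p : ℕ) : ℂ) ^ ((k.2 : ℂ) * I)) = ((p : ℕ) : ℂ) ^ (-(k.2 * I)) := by
    rw [Complex.cpow_def_of_ne_zero h0, Complex.cpow_def_of_ne_zero h0, ← Complex.exp_conj]
    congr 1
    rw [map_mul, map_mul, Complex.conj_I, Complex.conj_ofReal, ← Complex.natCast_log,
      Complex.conj_ofReal]
    ring
  rw [map_mul, Complex.conj_conj, hc]
  congr 1
  ring

/-- Bessel's inequality for the logarithms of the L-functions near the edge. -/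
theorem near_bessel (hA : ∀ p ∉ S, ∀ α ∈ (mat ρ A p).charpoly.roots, ‖α‖ ≤ (p : ℝ) ^ w)
    {R : ℝ} (hR : MeanSquareLe ρ A S w R) (F : Finset Pair)
    (hF : ∀ k ∈ F, k.1.1 ≠ 0 ∧ k.1.2.IsPrimitive) {δ : ℝ} (hδ : 0 < δ) :
    ∀ᶠ ε : ℝ in 𝓝[>] 0,
      ∑ k ∈ F, (Real.log ‖twistL ρ A S k.1.2 (1 + w + ε + k.2 * I)‖) ^ 2 ≤
        (R + δ) * (Real.log (1 / ε)) ^ 2 := by
  classical
  have hR0 := nonneg_of_meanSquareLe hR
  obtain ⟨C, hC⟩ := lam_bounded
  -- (|x| + D)^2 ≤ (1+η) x^2 + (1 + 1/η) D^2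
  set D : ℝ := m * K2 with hD
  set η : ℝ := δ / (4 * (R + δ)) with hη
  have hη0 : 0 < η := by positivity
  have hη1 : (1 + η) * (R + δ / 4) ≤ R + δ / 2 := by
    have h1 : η * (R + δ / 4) ≤ δ / 4 := by
      rw [hη, div_mul_eq_mul_div, div_le_iff₀ (by positivity)]
      nlinarith
    linarith
  have hsq : ∀ x y : ℝ, |y - x| ≤ D → y ^ 2 ≤ (1 + η) * x ^ 2 + (1 + 1 / η) * D ^ 2 := by
    intro x y h
    have h1 : (y - x) ^ 2 ≤ D ^ 2 := by
      rw [← sq_abs (y - x)]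
      exact pow_le_pow_left₀ (abs_nonneg _) h 2
    have h2 : 2 * x * (y - x) ≤ η * x ^ 2 + (1 / η) * (y - x) ^ 2 := by
      have h3 : 0 ≤ (η * x - (y - x)) ^ 2 / η := by positivity
      have h4 : (η * x - (y - x)) ^ 2 / η = η * x ^ 2 - 2 * x * (y - x) + (1 / η) * (y - x) ^ 2 := by
        field_simp
        ring
      linarith
    have h5 : (1 / η) * (y - x) ^ 2 ≤ (1 / η) * D ^ 2 := by gcongr
    nlinarith
  set B : ℝ := F.card * ((1 + 1 / η) * D ^ 2) with hB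
  have hB0 : 0 ≤ B := by positivity
  -- conversion of lam into log (1/ε)
  have hconv : ∀ᶠ ε : ℝ in 𝓝[>] 0,
      (R + δ / 2) * (lam ε) ^ 2 + B ≤ (R + δ) * (Real.log (1 / ε)) ^ 2 := by
    have h0 : 0 < R + δ / 2 := by positivity
    filter_upwards [hC, log_inv_tendsto.eventually_ge_atTop
      (max 1 (((R + δ / 2) * (2 * |C| + C ^ 2) + B) * 2 / δ))] with ε h1 h2
    have h3 : (1 : ℝ) ≤ Real.log (1 / ε) := (le_max_left _ _).trans h2
    have h4 := (le_max_right _ _).trans h2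
    set L := Real.log (1 / ε) with hL
    have h5 : lam ε ≤ L + |C| := by
      rw [hL, one_div, Real.log_inv]
      have := (abs_le.1 h1).2
      linarith [le_abs_self C]
    have h6 : 0 ≤ lam ε := tsum_nonneg fun p => w_nonneg ε p
    have h7 : (lam ε) ^ 2 ≤ (L + |C|) ^ 2 := pow_le_pow_left₀ h6 h5 2
    have h8 : (L + |C|) ^ 2 ≤ L ^ 2 + (2 * |C| + C ^ 2) * L := by
      have e1 : (L + |C|) ^ 2 = L ^ 2 + 2 * |C| * L + C ^ 2 := by
        rw [← sq_abs C]; ring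
      rw [e1]
      nlinarith [mul_le_mul_of_nonneg_left h3 (sq_nonneg C)]
    rw [div_le_iff₀ hδ] at h4
    have h9 : (R + δ / 2) * (lam ε) ^ 2 ≤ (R + δ / 2) * (L ^ 2 + (2 * |C| + C ^ 2) * L) := by
      gcongr
      exact h7.trans h8
    have h10 : B ≤ B * L := le_mul_of_one_le_right hB0 h3
    have h11 : ((R + δ / 2) * (2 * |C| + C ^ 2) + B) * L ≤ δ / 2 * L * L := by
      have : ((R + δ / 2) * (2 * |C| + C ^ 2) + B) ≤ δ / 2 * L := by linarith
      exact mul_le_mul_of_nonneg_right this (by linarith)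
    nlinarith
  filter_upwards [xx_bessel hA hR F hF (δ := δ / 4) (by positivity), hconv, self_mem_nhdsWithin]
    with ε h1 h2 h3
  have hε : (0 : ℝ) < ε := h3
  calc ∑ k ∈ F, (Real.log ‖twistL ρ A S k.1.2 (1 + w + ε + k.2 * I)‖) ^ 2
      ≤ ∑ k ∈ F, ((1 + η) * (xx ρ A S w k.1.2 k.2 ε) ^ 2 + (1 + 1 / η) * D ^ 2) :=
        Finset.sum_le_sum fun k _ => hsq _ _ (near hA k.1.2 k.2 hε).2
    _ = (1 + η) * (∑ k ∈ F, (xx ρ A S w k.1.2 k.2 ε) ^ 2) + B := by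
        rw [Finset.sum_add_distrib, ← Finset.mul_sum, Finset.sum_const, nsmul_eq_mul]
    _ ≤ (1 + η) * ((R + δ / 4) * (lam ε) ^ 2) + B := by gcongr
    _ ≤ (R + δ / 2) * (lam ε) ^ 2 + B := by
        rw [← mul_assoc]
        gcongr
    _ ≤ _ := h2

/-- The orders of meromorphic extensions at edge points. -/
theorem orders_bessel (hA : ∀ p ∉ S, ∀ α ∈ (mat ρ A p).charpoly.roots, ‖α‖ ≤ (p : ℝ) ^ w)
    {R : ℝ} (hR : MeanSquareLe ρ A S w R) (F : Finset Pair)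
    (hF : ∀ k ∈ F, k.1.1 ≠ 0 ∧ k.1.2.IsPrimitive) (Λ : Pair → ℂ → ℂ)
    (hΛ : ∀ k ∈ F, MeromorphicAt (Λ k) (1 + w + k.2 * I))
    (hΛL : ∀ k ∈ F, ∀ᶠ s in 𝓝 (1 + w + k.2 * I : ℂ), 1 + w < s.re → Λ k s = twistL ρ A S k.1.2 s) :
    ∃ r : Pair → ℤ,
      (∀ k ∈ F, meromorphicOrderAt (Λ k) (1 + w + k.2 * I) = r k) ∧
      (∑ k ∈ F, (r k : ℝ) ^ 2) ≤ R := by
  classical
  have hpath0 : ∀ s₀ : ℂ, Tendsto (fun ε : ℝ => s₀ + ε) (𝓝[>] 0) (𝓝 s₀) := by
    intro s₀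
    have : ContinuousAt (fun ε : ℝ => s₀ + (ε : ℂ)) 0 := by fun_prop
    have h2 := this.tendsto
    simp only [ofReal_zero, add_zero] at h2
    exact h2.mono_left nhdsWithin_le_nhds
  have heq : ∀ k ∈ F, ∀ᶠ ε : ℝ in 𝓝[>] 0,
      Λ k ((1 + w + k.2 * I : ℂ) + ε) = twistL ρ A S k.1.2 (1 + w + ε + k.2 * I) := by
    intro k hk
    filter_upwards [(hpath0 _).eventually (hΛL k hk), self_mem_nhdsWithin] with ε h1 h2
    have hε : (0 : ℝ) < ε := h2
    rw [h1 (by simp [hε])]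
    congr 1
    ring
  have hord : ∀ k, ∃ r : ℤ, k ∈ F → meromorphicOrderAt (Λ k) (1 + w + k.2 * I) = r := by
    intro k
    by_cases hk : k ∈ F
    · have hfreq : ∃ᶠ z in 𝓝[≠] (1 + w + k.2 * I : ℂ), Λ k z ≠ 0 := by
        have hpath : Tendsto (fun ε : ℝ => (1 + w + k.2 * I : ℂ) + ε) (𝓝[>] 0)
            (𝓝[≠] (1 + w + k.2 * I : ℂ)) := by
          rw [tendsto_nhdsWithin_iff]
          refine ⟨hpath0 _, ?_⟩
          filter_upwards [self_mem_nhdsWithin] with ε hε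
          have hε' : (0 : ℝ) < ε := hε
          simp only [Set.mem_compl_iff, Set.mem_singleton_iff, add_eq_left]
          exact_mod_cast hε'.ne'
        have hne : ∀ᶠ ε : ℝ in 𝓝[>] 0, Λ k ((1 + w + k.2 * I : ℂ) + ε) ≠ 0 := by
          filter_upwards [heq k hk, self_mem_nhdsWithin] with ε h1 h2
          rw [h1]
          exact (near hA k.1.2 k.2 h2).1
        exact hpath.frequently hne.frequently
      have hnt : meromorphicOrderAt (Λ k) (1 + w + k.2 * I) ≠ ⊤ := by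
        rw [Ne, meromorphicOrderAt_eq_top_iff]
        intro h
        exact hfreq (h.mono fun z hz => not_not.2 hz)
      obtain ⟨r, hr⟩ := WithTop.ne_top_iff_exists.1 hnt
      exact ⟨r, fun _ => hr.symm⟩
    · exact ⟨0, fun h => absurd h hk⟩
  choose r hr using hord
  refine ⟨r, hr, ?_⟩
  have hlim : ∀ k ∈ F, Tendsto (fun ε : ℝ =>
      (Real.log ‖twistL ρ A S k.1.2 (1 + w + ε + k.2 * I)‖) ^ 2 / (Real.log (1 / ε)) ^ 2) (𝓝[>] 0)
      (𝓝 ((r k : ℝ) ^ 2)) := by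
    intro k hk
    obtain ⟨C, hC⟩ := log_norm_meromorphic (hΛ k hk) (hr k hk)
    have h1 : Tendsto (fun ε : ℝ =>
        (Real.log ‖Λ k ((1 + w + k.2 * I : ℂ) + ε)‖ - r k * Real.log ε) / Real.log (1 / ε))
        (𝓝[>] 0) (𝓝 0) := by
      refine squeeze_zero_norm' ?_ (a := fun ε => |C| / Real.log (1 / ε)) ?_
      · filter_upwards [hC, log_inv_tendsto.eventually_gt_atTop 0] with ε h2 h3
        rw [Real.norm_eq_abs, abs_div, abs_of_pos h3]
        have := h2.2.trans (le_abs_self C)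
        gcongr
      · exact log_inv_tendsto.const_div_atTop _
    have h2 : Tendsto (fun ε : ℝ =>
        Real.log ‖Λ k ((1 + w + k.2 * I : ℂ) + ε)‖ / Real.log (1 / ε)) (𝓝[>] 0)
        (𝓝 (-(r k : ℝ))) := by
      have h3 : Tendsto (fun ε : ℝ =>
          (Real.log ‖Λ k ((1 + w + k.2 * I : ℂ) + ε)‖ - r k * Real.log ε) / Real.log (1 / ε) +
            -(r k : ℝ)) (𝓝[>] 0) (𝓝 (0 + -(r k : ℝ))) := h1.add_const _
      rw [zero_add] at h3
      refine h3.congr' ?_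
      filter_upwards [log_inv_tendsto.eventually_gt_atTop 0] with ε h4
      have h5 : Real.log ε = -Real.log (1 / ε) := by
        rw [one_div, Real.log_inv, neg_neg]
      rw [h5]
      field_simp
      ring
    have h6 := h2.pow 2
    rw [neg_sq] at h6
    refine h6.congr' ?_
    filter_upwards [heq k hk] with ε h7
    rw [h7, div_pow]
  have hsum := tendsto_finsetSum F hlim
  refine le_of_forall_pos_le_add fun δ hδ => ?_
  refine le_of_tendsto hsum ?_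
  filter_upwards [near_bessel hA hR F hF hδ, log_inv_tendsto.eventually_gt_atTop 0] with ε h1 h2
  rw [← Finset.sum_div, div_le_iff₀ (by positivity)]
  exact h1

end Pool.Agent.H304R6
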