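import Pool.Agent.H304R6.Facts

set_option autoImplicit false

namespace Pool.Agent.H304R6

open Complex Filter Topology ComplexConjugate Polynomial
open Pool.Agent.H341R2

variable {G : Type*} [Group G] {m : ℕ} {ρ : G →* GL (Fin m) ℂ} {A : Nat.Primes → G}
  {S : Finset Nat.Primes} {w : ℝ}

/-- the mean `∑ Re(χ(p) t(p) p^{-iτ}) p^{-1-ε}` -/
noncomputable def xx (ρ : G →* GL (Fin m) ℂ) (A : Nat.Primes → G) (S : Finset Nat.Primes) (w : ℝ)
    {N : ℕ} (χ : DirichletCharacter ℂ N) (τ ε : ℝ) : ℝ :=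
  E ε fun p => (χ p * tr ρ A S w p * ((p : ℕ) : ℂ) ^ (-(τ * I))).re

theorem near (hA : ∀ p ∉ S, ∀ α ∈ (mat ρ A p).charpoly.roots, ‖α‖ ≤ (p : ℝ) ^ w)
    {N : ℕ} (χ : DirichletCharacter ℂ N) (τ : ℝ) {ε : ℝ} (hε : 0 < ε) :
    twistL ρ A S χ (1 + w + ε + τ * I) ≠ 0 ∧
    |Real.log ‖twistL ρ A S χ (1 + w + ε + τ * I)‖ - xx ρ A S w χ τ ε| ≤ m * K2 := by
  classical
  have hfin : {p : Nat.Primes | ¬ (p ∉ S)}.Finite := by
    refine S.finite_toSet.subset fun p hp => ?_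
    simpa using hp
  have hIone : ∀ p : Nat.Primes, ‖((p : ℕ) : ℂ) ^ (-(τ * I))‖ = 1 := by
    intro p
    rw [norm_prime_cpow]
    simp
  obtain ⟨h1, h2⟩ := summable_and_bound (Good := fun p => p ∉ S) hε
    (fun p => logF ρ A χ p (1 + w + ε + τ * I))
    (fun p => χ p * tr ρ A S w p * ((p : ℕ) : ℂ) ^ (-(τ * I))) (C := m) (K := m)
    (fun p => by
      rw [norm_mul, norm_mul, hIone, mul_one]
      calc ‖χ p‖ * ‖tr ρ A S w p‖ ≤ 1 * m :=
            mul_le_mul (χ.norm_le_one _) (norm_tr_le hA p) (norm_nonneg _) zero_le_one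
        _ = m := one_mul _)
    (fun p hp => by
      have : tr ρ A S w p = 0 := by rw [tr, if_pos (not_not.1 hp)]
      simp only [this, mul_zero, zero_mul])
    (fun p hp => logF_sub_le hA χ hp τ hε)
  have h3 : twistL ρ A S χ (1 + w + ε + τ * I) =
      Complex.exp (∑' p, if p ∉ S then logF ρ A χ p (1 + w + ε + τ * I) else 0) := by
    have h4 := tprod_split (Good := fun p => p ∉ S) hfin
      (fun p => logF ρ A χ p (1 + w + ε + τ * I)) (fun _ => 1) h1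
    rw [Finset.prod_const_one, one_mul] at h4
    rw [← h4, twistL]
    refine tprod_congr fun p => ?_
    by_cases hp : p ∈ S
    · simp [hp]
    · rw [if_neg hp, if_pos hp, exp_logF hA χ hp]
      simp [hε.le]
  refine ⟨by rw [h3]; exact Complex.exp_ne_zero _, ?_⟩
  rw [h3, Complex.norm_exp, Real.log_exp]
  have h5 : |(m : ℝ)| = m := abs_of_nonneg (Nat.cast_nonneg m)
  rw [h5] at h2
  exact h2

/-- pairs (Dirichlet character of some modulus, height) -/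
abbrev Pair : Type := (Σ N : ℕ, DirichletCharacter ℂ N) × ℝ

theorem changeLevel_prime {n M : ℕ} (h : n ∣ M) (χ : DirichletCharacter ℂ n) (p : Nat.Primes)
    (hp : Nat.Coprime p M) :
    DirichletCharacter.changeLevel h χ ((p : ℕ) : ZMod M) = χ ((p : ℕ) : ZMod n) := by
  have h1 : IsCoprime ((p : ℕ) : ℤ) (M : ℤ) := Nat.isCoprime_iff_coprime.2 hp
  have h2 := DirichletCharacter.changeLevel_eq_cast_of_dvd' χ h h1
  push_cast at h2
  exact h2

/-- `χ₂ χ̄₁` as a character modulo `N₁ N₂` -/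
noncomputable def quot {n₁ n₂ : ℕ} (χ₁ : DirichletCharacter ℂ n₁) (χ₂ : DirichletCharacter ℂ n₂) :
    DirichletCharacter ℂ (n₁ * n₂) :=
  DirichletCharacter.changeLevel (Dvd.intro_left n₁ rfl) χ₂ *
    (DirichletCharacter.changeLevel (Dvd.intro n₂ rfl) χ₁)⁻¹

theorem quot_apply {n₁ n₂ : ℕ} (χ₁ : DirichletCharacter ℂ n₁) (χ₂ : DirichletCharacter ℂ n₂)
    (p : Nat.Primes) :
    quot χ₁ χ₂ ((p : ℕ) : ZMod (n₁ * n₂)) =
      conj (χ₁ ((p : ℕ) : ZMod n₁)) * χ₂ ((p : ℕ) : ZMod n₂) := by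
  have hstar : ∀ {n : ℕ} (χ : DirichletCharacter ℂ n) (a : ZMod n), conj (χ a) = (χ⁻¹) a := by
    intro n χ a
    have := MulChar.star_apply χ a
    rw [MulChar.star_eq_inv] at this
    rw [this]
    rfl
  by_cases hp : Nat.Coprime p (n₁ * n₂)
  · rw [quot, MulChar.mul_apply, ← hstar, changeLevel_prime _ _ _ hp, changeLevel_prime _ _ _ hp,
      mul_comm]
  · have h1 : ¬ IsUnit (((p : ℕ) : ZMod (n₁ * n₂))) := by
      rw [ZMod.isUnit_iff_coprime]
      exact hp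
    rw [MulChar.map_nonunit _ h1]
    have h2 : ¬ Nat.Coprime p n₁ ∨ ¬ Nat.Coprime p n₂ := by
      by_contra h
      push Not at h
      exact hp (Nat.Coprime.mul_right h.1 h.2)
    rcases h2 with h | h
    · rw [MulChar.map_nonunit χ₁ (by rw [ZMod.isUnit_iff_coprime]; exact h)]
      simp
    · rw [MulChar.map_nonunit χ₂ (by rw [ZMod.isUnit_iff_coprime]; exact h)]
      simp

theorem quot_ne_one {k l : Σ N : ℕ, DirichletCharacter ℂ N} (hk : k.1 ≠ 0) (hl : l.1 ≠ 0)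
    (hkp : k.2.IsPrimitive) (hlp : l.2.IsPrimitive) (hkl : k ≠ l) : quot k.2 l.2 ≠ 1 := by
  obtain ⟨n₁, χ₁⟩ := k
  obtain ⟨n₂, χ₂⟩ := l
  have : NeZero (n₁ * n₂) := ⟨mul_ne_zero hk hl⟩
  intro h
  apply hkl
  have h1 : DirichletCharacter.changeLevel (Dvd.intro_left n₁ rfl : n₂ ∣ n₁ * n₂) χ₂ =
      DirichletCharacter.changeLevel (Dvd.intro n₂ rfl : n₁ ∣ n₁ * n₂) χ₁ := mul_inv_eq_one.1 h
  have h2 : n₂ = n₁ := by
    have h3 := congrArg DirichletCharacter.conductor h1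
    rw [DirichletCharacter.conductor_changeLevel, DirichletCharacter.conductor_changeLevel] at h3
    rw [DirichletCharacter.isPrimitive_def] at hkp hlp
    rw [hkp, hlp] at h3
    exact h3
  subst h2
  have h4 := DirichletCharacter.changeLevel_injective _ h1
  rw [h4]

theorem E_orth {k l : Pair} (hk : k.1.1 ≠ 0) (hl : l.1.1 ≠ 0)
    (hkp : k.1.2.IsPrimitive) (hlp : l.1.2.IsPrimitive) (hkl : k ≠ l) :
    ∃ C : ℝ, ∀ᶠ ε : ℝ in 𝓝[>] 0,
      |E ε fun p => ((conj (k.1.2 ((p : ℕ) : ZMod k.1.1)) * ((p : ℕ) : ℂ) ^ (k.2 * I)) *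
        conj (conj (l.1.2 ((p : ℕ) : ZMod l.1.1)) * ((p : ℕ) : ℂ) ^ (l.2 * I))).re| ≤ C := by
  have : NeZero (k.1.1 * l.1.1) := ⟨mul_ne_zero hk hl⟩
  have h : quot k.1.2 l.1.2 ≠ 1 ∨ (l.2 - k.2) ≠ 0 := by
    by_cases h1 : k.1 = l.1
    · right
      intro h2
      exact hkl (Prod.ext h1 (by linarith))
    · left
      exact quot_ne_one hk hl hkp hlp h1
  obtain ⟨C, hC⟩ := primeSum_bounded (quot k.1.2 l.1.2) (l.2 - k.2) h
  refine ⟨C, ?_⟩
  filter_upwards [hC, self_mem_nhdsWithin] with ε h1 h2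
  have hε : (0 : ℝ) < ε := h2
  convert h1 using 2
  rw [E, Complex.re_tsum]
  · refine tsum_congr fun p => ?_
    have h0 : ((p : ℕ) : ℂ) ≠ 0 := by exact_mod_cast p.2.ne_zero
    have hc : conj (((p : ℕ) : ℂ) ^ ((l.2 : ℂ) * I)) = ((p : ℕ) : ℂ) ^ (-(l.2 * I)) := by
      rw [Complex.cpow_def_of_ne_zero h0, Complex.cpow_def_of_ne_zero h0, ← Complex.exp_conj]
      congr 1
      rw [map_mul, map_mul, Complex.conj_I, Complex.conj_ofReal, ← Complex.natCast_log,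
        Complex.conj_ofReal]
      ring
    have h3 : ((conj (k.1.2 ((p : ℕ) : ZMod k.1.1)) * ((p : ℕ) : ℂ) ^ (k.2 * I)) *
        conj (conj (l.1.2 ((p : ℕ) : ZMod l.1.1)) * ((p : ℕ) : ℂ) ^ (l.2 * I))) =
        quot k.1.2 l.1.2 p * ((p : ℕ) : ℂ) ^ (-(((l.2 - k.2 : ℝ) : ℂ) * I)) := by
      rw [map_mul, Complex.conj_conj, hc, quot_apply]
      push_cast
      have : -(((l.2 : ℂ) - k.2) * I) = k.2 * I + -(l.2 * I) := by ring
      rw [this, Complex.cpow_add _ _ h0]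
      ring
    rw [h3]
    have h4 : ((p : ℕ) : ℂ) ^ (-(1 + ε + ((l.2 - k.2 : ℝ) : ℂ) * I) : ℂ) =
        ((p : ℕ) : ℂ) ^ (-(((l.2 - k.2 : ℝ) : ℂ) * I)) * (((p : ℝ) ^ (-(1 + ε)) : ℝ) : ℂ) := by
      rw [Complex.ofReal_cpow (by positivity)]
      push_cast
      rw [← Complex.cpow_add _ _ h0]
      congr 1
      ring
    rw [h4, ← mul_assoc, Complex.re_mul_ofReal]
  · refine Summable.of_norm_bounded (summable_prime_rpow (r := -(1 + ε)) (by linarith)) fun p => ?_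
    rw [norm_mul, norm_prime_cpow]
    refine mul_le_of_le_one_left (by positivity) ?_ |>.trans (le_of_eq ?_)
    · exact (quot k.1.2 l.1.2).norm_le_one _
    · congr 1
      simp

theorem E_eq (ε : ℝ) : E ε (fun p => ‖tr ρ A S w p‖ ^ 2) =
    ∑' p : Nat.Primes, (if p ∈ S then 0 else
      ‖(mat ρ A p).trace‖ ^ 2 * (p : ℝ) ^ (-(2 * w + 1 + ε))) := by
  classical
  rw [E]
  refine tsum_congr fun p => ?_
  have hp0 : (0 : ℝ) < p := by exact_mod_cast p.2.pos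
  rw [tr]
  split_ifs with h
  · simp
  · rw [norm_mul, Complex.norm_real, Real.norm_eq_abs, abs_of_pos (Real.rpow_pos_of_pos hp0 _),
      mul_pow, mul_assoc, ← Real.rpow_natCast ((p : ℝ) ^ (-w)), ← Real.rpow_mul hp0.le,
      ← Real.rpow_add hp0]
    congr 2
    push_cast
    ring

theorem log_inv_tendsto : Tendsto (fun ε : ℝ => Real.log (1 / ε)) (𝓝[>] 0) atTop := by
  have h : (fun ε : ℝ => Real.log (1 / ε)) = fun ε => -Real.log ε := by
    funext ε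
    rw [one_div, Real.log_inv]
  rw [h]
  exact tendsto_neg_atBot_atTop.comp Real.tendsto_log_nhdsGT_zero

theorem nonneg_of_meanSquareLe {R : ℝ} (hR : MeanSquareLe ρ A S w R) : 0 ≤ R := by
  by_contra hcon
  push Not at hcon
  have h1 := hR (-R / 2) (by linarith)
  obtain ⟨ε, h2, h3⟩ := (h1.and (log_inv_tendsto.eventually_gt_atTop 0)).exists
  have h4 : 0 ≤ ∑' p : Nat.Primes, (if p ∈ S then 0 else
      ‖(mat ρ A p).trace‖ ^ 2 * (p : ℝ) ^ (-(2 * w + 1 + ε))) := by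
    refine tsum_nonneg fun p => ?_
    split_ifs
    · exact le_rfl
    · positivity
  have h5 : (R + -R / 2) * Real.log (1 / ε) < 0 := by
    have : R + -R / 2 < 0 := by linarith
    exact mul_neg_of_neg_of_pos this h3
  linarith

theorem meanSquareLe_sq (hA : ∀ p ∉ S, ∀ α ∈ (mat ρ A p).charpoly.roots, ‖α‖ ≤ (p : ℝ) ^ w) :
    MeanSquareLe ρ A S w ((m : ℝ) ^ 2) := by
  intro δ hδ
  obtain ⟨C, hC⟩ := lam_bounded
  filter_upwards [hC, log_inv_tendsto.eventually_ge_atTop ((m : ℝ) ^ 2 * |C| / δ),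
    self_mem_nhdsWithin] with ε h1 h2 h3
  have hε : (0 : ℝ) < ε := h3
  rw [← E_eq]
  have h4 : E ε (fun p => ‖tr ρ A S w p‖ ^ 2) ≤ (m : ℝ) ^ 2 * lam ε := by
    have hb : ∀ p, |‖tr ρ A S w p‖ ^ 2| ≤ (m : ℝ) ^ 2 := by
      intro p
      rw [abs_of_nonneg (sq_nonneg _)]
      exact pow_le_pow_left₀ (norm_nonneg _) (norm_tr_le hA p) 2
    exact E_le hε hb fun p => (le_abs_self _).trans (hb p)
  have h5 : lam ε ≤ Real.log (1 / ε) + |C| := by
    rw [one_div, Real.log_inv]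
    have := (abs_le.1 h1).2
    linarith [le_abs_self C]
  rw [div_le_iff₀ hδ] at h2
  calc E ε (fun p => ‖tr ρ A S w p‖ ^ 2) ≤ (m : ℝ) ^ 2 * lam ε := h4
    _ ≤ (m : ℝ) ^ 2 * (Real.log (1 / ε) + |C|) := by gcongr
    _ ≤ ((m : ℝ) ^ 2 + δ) * Real.log (1 / ε) := by linarith

end Pool.Agent.H304R6
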