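import Pool.Agent.H304R6.Two

set_option autoImplicit false

namespace Pool.Agent.H304R6

open Complex Filter Topology ComplexConjugate Polynomial
open Pool.Agent.H341R2

variable {G : Type*} [Group G] {n : ℕ} {ρ : G →* GL (Fin n) ℂ} {A : Nat.Primes → G}
  {G' : Type*} [Group G'] {n' : ℕ} {ρ' : G' →* GL (Fin n') ℂ} {A' : Nat.Primes → G'}
  {S : Finset Nat.Primes} {w : ℝ}

theorem order_limit (hA : ∀ p ∉ S, ∀ α ∈ (mat ρ A p).charpoly.roots, ‖α‖ ≤ (p : ℝ) ^ w)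
    {N : ℕ} (χ : DirichletCharacter ℂ N) (τ : ℝ) {Λ : ℂ → ℂ}
    (hΛ : MeromorphicAt Λ (1 + w + τ * I))
    (hΛL : ∀ᶠ s in 𝓝 (1 + w + τ * I : ℂ), 1 + w < s.re → Λ s = twistL ρ A S χ s) :
    ∃ r : ℤ, meromorphicOrderAt Λ (1 + w + τ * I) = r ∧
      Tendsto (fun ε : ℝ => Real.log ‖twistL ρ A S χ (1 + w + ε + τ * I)‖ / Real.log (1 / ε))
        (𝓝[>] 0) (𝓝 (-(r : ℝ))) := by
  classical
  have hpath0 : Tendsto (fun ε : ℝ => (1 + w + τ * I : ℂ) + ε) (𝓝[>] 0)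
      (𝓝 (1 + w + τ * I : ℂ)) := by
    have : ContinuousAt (fun ε : ℝ => (1 + w + τ * I : ℂ) + (ε : ℂ)) 0 := by fun_prop
    have h2 := this.tendsto
    simp only [ofReal_zero, add_zero] at h2
    exact h2.mono_left nhdsWithin_le_nhds
  have heq : ∀ᶠ ε : ℝ in 𝓝[>] 0,
      Λ ((1 + w + τ * I : ℂ) + ε) = twistL ρ A S χ (1 + w + ε + τ * I) := by
    filter_upwards [hpath0.eventually hΛL, self_mem_nhdsWithin] with ε h1 h2
    have hε : (0 : ℝ) < ε := h2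
    rw [h1 (by simp [hε])]
    congr 1
    ring
  have hfreq : ∃ᶠ z in 𝓝[≠] (1 + w + τ * I : ℂ), Λ z ≠ 0 := by
    have hpath : Tendsto (fun ε : ℝ => (1 + w + τ * I : ℂ) + ε) (𝓝[>] 0)
        (𝓝[≠] (1 + w + τ * I : ℂ)) := by
      rw [tendsto_nhdsWithin_iff]
      refine ⟨hpath0, ?_⟩
      filter_upwards [self_mem_nhdsWithin] with ε hε
      have hε' : (0 : ℝ) < ε := hε
      simp only [Set.mem_compl_iff, Set.mem_singleton_iff, add_eq_left]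
      exact_mod_cast hε'.ne'
    have hne : ∀ᶠ ε : ℝ in 𝓝[>] 0, Λ ((1 + w + τ * I : ℂ) + ε) ≠ 0 := by
      filter_upwards [heq, self_mem_nhdsWithin] with ε h1 h2
      rw [h1]
      exact (near hA χ τ h2).1
    exact hpath.frequently hne.frequently
  have hnt : meromorphicOrderAt Λ (1 + w + τ * I) ≠ ⊤ := by
    rw [Ne, meromorphicOrderAt_eq_top_iff]
    intro h
    exact hfreq (h.mono fun z hz => not_not.2 hz)
  obtain ⟨r, hr⟩ := WithTop.ne_top_iff_exists.1 hnt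
  refine ⟨r, hr.symm, ?_⟩
  obtain ⟨C, hC⟩ := log_norm_meromorphic hΛ hr.symm
  have h1 : Tendsto (fun ε : ℝ =>
      (Real.log ‖Λ ((1 + w + τ * I : ℂ) + ε)‖ - r * Real.log ε) / Real.log (1 / ε))
      (𝓝[>] 0) (𝓝 0) := by
    refine squeeze_zero_norm' ?_ (a := fun ε => |C| / Real.log (1 / ε)) ?_
    · filter_upwards [hC, log_inv_tendsto.eventually_gt_atTop 0] with ε h2 h3
      rw [Real.norm_eq_abs, abs_div, abs_of_pos h3]
      have := h2.2.trans (le_abs_self C)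
      gcongr
    · exact log_inv_tendsto.const_div_atTop _
  have h3 : Tendsto (fun ε : ℝ =>
      (Real.log ‖Λ ((1 + w + τ * I : ℂ) + ε)‖ - r * Real.log ε) / Real.log (1 / ε) +
        -(r : ℝ)) (𝓝[>] 0) (𝓝 (0 + -(r : ℝ))) := h1.add_const _
  rw [zero_add] at h3
  refine h3.congr' ?_
  filter_upwards [log_inv_tendsto.eventually_gt_atTop 0, heq] with ε h4 h6
  have h5 : Real.log ε = -Real.log (1 / ε) := by
    rw [one_div, Real.log_inv, neg_neg]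
  rw [h5, h6]
  field_simp
  ring

theorem orders_diff (hA : ∀ p ∉ S, ∀ α ∈ (mat ρ A p).charpoly.roots, ‖α‖ ≤ (p : ℝ) ^ w)
    (hA' : ∀ p ∉ S, ∀ α ∈ (mat ρ' A' p).charpoly.roots, ‖α‖ ≤ (p : ℝ) ^ w)
    {T : Set Nat.Primes} {δ : ℝ} (hT : LogDensityLe T δ)
    (hAA : ∀ p ∉ S, p ∉ T → (mat ρ A p).charpoly = (mat ρ' A' p).charpoly)
    (F : Finset Pair) (hF : ∀ k ∈ F, k.1.1 ≠ 0 ∧ k.1.2.IsPrimitive)
    (Λ Λ' : Pair → ℂ → ℂ)
    (hΛ : ∀ k ∈ F, MeromorphicAt (Λ k) (1 + w + k.2 * I))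
    (hΛ' : ∀ k ∈ F, MeromorphicAt (Λ' k) (1 + w + k.2 * I))
    (hΛL : ∀ k ∈ F, ∀ᶠ s in 𝓝 (1 + w + k.2 * I : ℂ), 1 + w < s.re → Λ k s = twistL ρ A S k.1.2 s)
    (hΛL' : ∀ k ∈ F, ∀ᶠ s in 𝓝 (1 + w + k.2 * I : ℂ), 1 + w < s.re →
      Λ' k s = twistL ρ' A' S k.1.2 s) :
    ∃ r r' : Pair → ℤ,
      (∀ k ∈ F, meromorphicOrderAt (Λ k) (1 + w + k.2 * I) = r k ∧
        meromorphicOrderAt (Λ' k) (1 + w + k.2 * I) = r' k) ∧
      (∑ k ∈ F, ((r k : ℝ) - r' k) ^ 2) ≤ ((n : ℝ) + n') ^ 2 * δ := by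
  classical
  have h1 : ∀ k, ∃ r : ℤ, k ∈ F → meromorphicOrderAt (Λ k) (1 + w + k.2 * I) = r ∧
      Tendsto (fun ε : ℝ => Real.log ‖twistL ρ A S k.1.2 (1 + w + ε + k.2 * I)‖ /
        Real.log (1 / ε)) (𝓝[>] 0) (𝓝 (-(r : ℝ))) := by
    intro k
    by_cases hk : k ∈ F
    · obtain ⟨r, hr⟩ := order_limit hA k.1.2 k.2 (hΛ k hk) (hΛL k hk)
      exact ⟨r, fun _ => hr⟩
    · exact ⟨0, fun h => absurd h hk⟩
  have h2 : ∀ k, ∃ r : ℤ, k ∈ F → meromorphicOrderAt (Λ' k) (1 + w + k.2 * I) = r ∧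
      Tendsto (fun ε : ℝ => Real.log ‖twistL ρ' A' S k.1.2 (1 + w + ε + k.2 * I)‖ /
        Real.log (1 / ε)) (𝓝[>] 0) (𝓝 (-(r : ℝ))) := by
    intro k
    by_cases hk : k ∈ F
    · obtain ⟨r, hr⟩ := order_limit hA' k.1.2 k.2 (hΛ' k hk) (hΛL' k hk)
      exact ⟨r, fun _ => hr⟩
    · exact ⟨0, fun h => absurd h hk⟩
  choose r hr using h1
  choose r' hr' using h2
  refine ⟨r, r', fun k hk => ⟨(hr k hk).1, (hr' k hk).1⟩, ?_⟩
  have hlim : ∀ k ∈ F, Tendsto (fun ε : ℝ =>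
      (Real.log ‖twistL ρ A S k.1.2 (1 + w + ε + k.2 * I)‖ -
        Real.log ‖twistL ρ' A' S k.1.2 (1 + w + ε + k.2 * I)‖) ^ 2 / (Real.log (1 / ε)) ^ 2)
      (𝓝[>] 0) (𝓝 (((r k : ℝ) - r' k) ^ 2)) := by
    intro k hk
    have h3 := (((hr k hk).2.sub (hr' k hk).2).pow 2)
    have e1 : (-(r k : ℝ) - -(r' k : ℝ)) ^ 2 = ((r k : ℝ) - r' k) ^ 2 := by ring
    rw [e1] at h3
    refine h3.congr fun ε => ?_
    rw [← sub_div, div_pow]
  have hsum := tendsto_finsetSum F hlim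
  refine le_of_forall_pos_le_add fun d hd => ?_
  refine le_of_tendsto hsum ?_
  filter_upwards [ratio_bessel hA hA' hT hAA F hF hd, log_inv_tendsto.eventually_gt_atTop 0]
    with ε h1 h2
  rw [← Finset.sum_div, div_le_iff₀ (by positivity)]
  exact h1

end Pool.Agent.H304R6
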