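import Pool.Agent.H304R6.SchemeTwistDefs
import Pool.Agent.H304R6.Abstract

set_option autoImplicit false

namespace Pool.Agent.H304R6

open Complex Filter Topology ComplexConjugate Polynomial AlgebraicGeometry
open Pool.Agent.H341R2

variable (X : Scheme.{0}) (i : ℕ) (S : Finset Nat.Primes)

open Classical in
/-- normalized trace of Frobenius on `Hⁱ`, zero at `S` -/
noncomputable def tX (p : Nat.Primes) : ℂ :=
  if p ∈ S then 0 else
    (∑ β ∈ weightEigenvalues X p i, (((-1) ^ i * frobeniusDivisor X p β : ℤ) : ℂ) * β) *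
      (((p : ℝ) ^ (-((i : ℝ) / 2)) : ℝ) : ℂ)

variable {X i S}

theorem norm_memX {p : Nat.Primes} {β : ℂ} (h : β ∈ weightEigenvalues X p i) :
    ‖β‖ = (p : ℝ) ^ ((i : ℝ) / 2) := by
  classical
  rw [weightEigenvalues, Finset.mem_filter] at h
  exact h.2

theorem sum_normX_le {b : ℕ} {p : Nat.Primes} (hb : weightNumber X p i ≤ b) :
    ∑ β ∈ weightEigenvalues X p i, ‖(((-1) ^ i * frobeniusDivisor X p β : ℤ) : ℂ)‖ ≤ b := by
  have h1 : ∀ β, ‖(((-1) ^ i * frobeniusDivisor X p β : ℤ) : ℂ)‖ =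
      ((frobeniusDivisor X p β).natAbs : ℝ) := by
    intro β
    push_cast
    rw [norm_mul, norm_pow, norm_neg, norm_one, one_pow, one_mul, Complex.norm_intCast,
      ← Int.cast_abs, Int.abs_eq_natAbs]
    simp
  rw [Finset.sum_congr rfl fun β _ => h1 β]
  exact_mod_cast hb

theorem norm_tX_le {b : ℕ} (hb : ∀ p ∉ S, weightNumber X p i ≤ b) (p : Nat.Primes) :
    ‖tX X i S p‖ ≤ b := by
  classical
  have hp0 : (0 : ℝ) < p := by exact_mod_cast p.2.pos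
  rw [tX]
  split_ifs with h
  · simp
  · rw [norm_mul, Complex.norm_real, Real.norm_eq_abs, abs_of_pos (Real.rpow_pos_of_pos hp0 _)]
    calc ‖∑ β ∈ weightEigenvalues X p i, (((-1) ^ i * frobeniusDivisor X p β : ℤ) : ℂ) * β‖ *
          (p : ℝ) ^ (-((i : ℝ) / 2))
        ≤ (b * (p : ℝ) ^ ((i : ℝ) / 2)) * (p : ℝ) ^ (-((i : ℝ) / 2)) := by
          refine mul_le_mul_of_nonneg_right ?_ (by positivity)
          refine (norm_sum_le _ _).trans ?_
          calc ∑ β ∈ weightEigenvalues X p i,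
                ‖(((-1) ^ i * frobeniusDivisor X p β : ℤ) : ℂ) * β‖
              = ∑ β ∈ weightEigenvalues X p i,
                ‖(((-1) ^ i * frobeniusDivisor X p β : ℤ) : ℂ)‖ * (p : ℝ) ^ ((i : ℝ) / 2) := by
                refine Finset.sum_congr rfl fun β hβ => ?_
                rw [norm_mul, norm_memX hβ]
            _ ≤ b * (p : ℝ) ^ ((i : ℝ) / 2) := by
                rw [← Finset.sum_mul]
                exact mul_le_mul_of_nonneg_right (sum_normX_le (hb p h)) (by positivity)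
      _ = b := by
          rw [mul_assoc, ← Real.rpow_add hp0, add_neg_cancel, Real.rpow_zero, mul_one]

/-- logarithm of the twisted Euler factor -/
noncomputable def logX (X : Scheme.{0}) (i : ℕ) {N : ℕ} (χ : DirichletCharacter ℂ N)
    (p : Nat.Primes) (s : ℂ) : ℂ :=
  ∑ β ∈ weightEigenvalues X p i, (((-1) ^ i * frobeniusDivisor X p β : ℤ) : ℂ) *
    (-Complex.log (1 - χ p * β * ((p : ℕ) : ℂ) ^ (-s)))

theorem norm_termX_le {N : ℕ} (χ : DirichletCharacter ℂ N) {p : Nat.Primes} {β : ℂ}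
    (h : β ∈ weightEigenvalues X p i) {s : ℂ}
    (hs : (i : ℝ) / 2 + 1 ≤ s.re) : ‖χ p * β * ((p : ℕ) : ℂ) ^ (-s)‖ ≤ (p : ℝ) ^ (-1 : ℝ) := by
  have hp0 : (0 : ℝ) < p := by exact_mod_cast p.2.pos
  have hp1 : (1 : ℝ) ≤ p := by exact_mod_cast p.2.one_lt.le
  rw [norm_mul, norm_mul, norm_memX h, norm_prime_cpow]
  calc ‖χ p‖ * (p : ℝ) ^ ((i : ℝ) / 2) * (p : ℝ) ^ (-s.re)
      ≤ 1 * (p : ℝ) ^ ((i : ℝ) / 2) * (p : ℝ) ^ (-s.re) := by
        gcongr
        exact χ.norm_le_one _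
    _ = (p : ℝ) ^ ((i : ℝ) / 2 + -s.re) := by rw [one_mul, Real.rpow_add hp0]
    _ ≤ (p : ℝ) ^ (-1 : ℝ) := Real.rpow_le_rpow_of_exponent_le hp1 (by linarith)

theorem exp_logX {N : ℕ} (χ : DirichletCharacter ℂ N) {p : Nat.Primes} {s : ℂ}
    (hs : (i : ℝ) / 2 + 1 ≤ s.re) :
    Complex.exp (logX X i χ p s) = twistEulerFactor X i χ p s := by
  rw [logX, Complex.exp_sum, twistEulerFactor]
  refine Finset.prod_congr rfl fun β hβ => ?_
  have h1 := norm_termX_le χ hβ hs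
  have h2 : (p : ℝ) ^ (-1 : ℝ) ≤ 1 / 2 := prime_rpow_le_two le_rfl
  have h3 : (1 - χ p * β * ((p : ℕ) : ℂ) ^ (-s)) ≠ 0 := by
    intro h
    have h4 : χ p * β * ((p : ℕ) : ℂ) ^ (-s) = 1 := by linear_combination -h
    rw [h4, norm_one] at h1
    linarith
  rw [mul_neg, ← neg_mul, ← Int.cast_neg, Complex.exp_int_mul, Complex.exp_log h3]

theorem logX_sub_le {b : ℕ} {N : ℕ} (χ : DirichletCharacter ℂ N) (p : Nat.Primes) (hp : p ∉ S)
    (hb : ∀ p ∉ S, weightNumber X p i ≤ b) (τ : ℝ) {ε : ℝ} (hε : 0 < ε) :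
    ‖logX X i χ p (((i : ℂ) / 2 + 1) + ε + τ * I) -
      (χ p * tX X i S p * ((p : ℕ) : ℂ) ^ (-(τ * I))) * ((p : ℝ) ^ (-(1 + ε)) : ℝ)‖ ≤
      b * (p : ℝ) ^ (-2 : ℝ) := by
  classical
  set s : ℂ := ((i : ℂ) / 2 + 1) + ε + τ * I with hs
  have hp0 : (0 : ℝ) < p := by exact_mod_cast p.2.pos
  have hpc : ((p : ℕ) : ℂ) ≠ 0 := by exact_mod_cast p.2.ne_zero
  have hsre : (i : ℝ) / 2 + 1 ≤ s.re := by
    rw [hs]
    simp
    linarith
  have h1 : (χ p * tX X i S p * ((p : ℕ) : ℂ) ^ (-(τ * I))) * ((p : ℝ) ^ (-(1 + ε)) : ℝ) =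
      ∑ β ∈ weightEigenvalues X p i, (((-1) ^ i * frobeniusDivisor X p β : ℤ) : ℂ) *
        (χ p * β * ((p : ℕ) : ℂ) ^ (-s)) := by
    rw [tX, if_neg hp]
    have h2 : ((p : ℕ) : ℂ) ^ (-s) = (((p : ℝ) ^ (-((i : ℝ) / 2)) : ℝ) : ℂ) *
        (((p : ℕ) : ℂ) ^ (-(τ * I))) * ((p : ℝ) ^ (-(1 + ε)) : ℝ) := by
      rw [Complex.ofReal_cpow hp0.le, Complex.ofReal_cpow hp0.le]
      push_cast
      rw [← Complex.cpow_add _ _ hpc, ← Complex.cpow_add _ _ hpc]
      congr 1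
      rw [hs]
      ring
    rw [h2, Finset.sum_mul, Finset.mul_sum, Finset.sum_mul, Finset.sum_mul]
    refine Finset.sum_congr rfl fun β _ => ?_
    ring
  rw [h1, logX, ← Finset.sum_sub_distrib]
  refine (norm_sum_le _ _).trans ?_
  calc ∑ β ∈ weightEigenvalues X p i, ‖(((-1) ^ i * frobeniusDivisor X p β : ℤ) : ℂ) *
        (-Complex.log (1 - χ p * β * ((p : ℕ) : ℂ) ^ (-s))) -
        (((-1) ^ i * frobeniusDivisor X p β : ℤ) : ℂ) * (χ p * β * ((p : ℕ) : ℂ) ^ (-s))‖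
      ≤ ∑ β ∈ weightEigenvalues X p i, ‖(((-1) ^ i * frobeniusDivisor X p β : ℤ) : ℂ)‖ *
        (p : ℝ) ^ (-2 : ℝ) := by
        refine Finset.sum_le_sum fun β hβ => ?_
        rw [← mul_sub, norm_mul]
        refine mul_le_mul_of_nonneg_left ?_ (norm_nonneg _)
        have h3 := norm_termX_le χ hβ hsre
        have h4 : (p : ℝ) ^ (-1 : ℝ) ≤ 1 / 2 := prime_rpow_le_two le_rfl
        refine (norm_neg_log_sub_le (h3.trans h4)).trans ?_
        calc ‖χ p * β * ((p : ℕ) : ℂ) ^ (-s)‖ ^ 2 ≤ ((p : ℝ) ^ (-1 : ℝ)) ^ 2 := by gcongr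
          _ = (p : ℝ) ^ (-2 : ℝ) := by
              rw [← Real.rpow_natCast, ← Real.rpow_mul hp0.le]
              norm_num
    _ ≤ b * (p : ℝ) ^ (-2 : ℝ) := by
        rw [← Finset.sum_mul]
        exact mul_le_mul_of_nonneg_right (sum_normX_le (hb p hp)) (by positivity)

theorem nearX {b : ℕ} (hb : ∀ p ∉ S, weightNumber X p i ≤ b) (k : Pair) {ε : ℝ} (hε : 0 < ε) :
    schemeTwistL X i S k.1.2 (((i : ℂ) / 2 + 1) + ε + k.2 * I) ≠ 0 ∧
    |Real.log ‖schemeTwistL X i S k.1.2 (((i : ℂ) / 2 + 1) + ε + k.2 * I)‖ -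
      yy (tX X i S) k ε| ≤ b * K2 := by
  classical
  have hfin : {p : Nat.Primes | ¬ (p ∉ S)}.Finite := by
    refine S.finite_toSet.subset fun p hp => ?_
    simpa using hp
  have hIone : ∀ p : Nat.Primes, ‖((p : ℕ) : ℂ) ^ (-(k.2 * I))‖ = 1 := by
    intro p
    rw [norm_prime_cpow]
    simp
  obtain ⟨h1, h2⟩ := summable_and_bound (Good := fun p => p ∉ S) hε
    (fun p => logX X i k.1.2 p (((i : ℂ) / 2 + 1) + ε + k.2 * I))
    (fun p => k.1.2 p * tX X i S p * ((p : ℕ) : ℂ) ^ (-(k.2 * I))) (C := b) (K := b)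
    (fun p => by
      rw [norm_mul, norm_mul, hIone, mul_one]
      calc ‖k.1.2 p‖ * ‖tX X i S p‖ ≤ 1 * b :=
            mul_le_mul (k.1.2.norm_le_one _) (norm_tX_le hb p) (norm_nonneg _) zero_le_one
        _ = b := one_mul _)
    (fun p hp => by
      have : tX X i S p = 0 := by rw [tX, if_pos (not_not.1 hp)]
      simp only [this, mul_zero, zero_mul])
    (fun p hp => logX_sub_le k.1.2 p hp hb k.2 hε)
  have h3 : schemeTwistL X i S k.1.2 (((i : ℂ) / 2 + 1) + ε + k.2 * I) =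
      Complex.exp (∑' p, if p ∉ S then logX X i k.1.2 p (((i : ℂ) / 2 + 1) + ε + k.2 * I)
        else 0) := by
    have h4 := tprod_split (Good := fun p => p ∉ S) hfin
      (fun p => logX X i k.1.2 p (((i : ℂ) / 2 + 1) + ε + k.2 * I)) (fun _ => 1) h1
    rw [Finset.prod_const_one, one_mul] at h4
    rw [← h4, schemeTwistL]
    refine tprod_congr fun p => ?_
    by_cases hp : p ∈ S
    · simp [hp]
    · rw [if_neg hp, if_pos hp, exp_logX]
      simp [hε.le]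
  refine ⟨by rw [h3]; exact Complex.exp_ne_zero _, ?_⟩
  rw [h3, Complex.norm_exp, Real.log_exp]
  have h5 : |(b : ℝ)| = b := abs_of_nonneg (Nat.cast_nonneg b)
  rw [h5] at h2
  exact h2

end Pool.Agent.H304R6
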