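import Pool.Agent.H304R6.SchemeTwist

set_option autoImplicit false

namespace Pool.Agent.H304R6

open Complex Filter Topology ComplexConjugate Polynomial AlgebraicGeometry
open Pool.Agent.H341R2

variable {X : Scheme.{0}} {i : ℕ} {S : Finset Nat.Primes}

open Classical in
theorem convergesX {b : ℕ} (hb : ∀ p ∉ S, weightNumber X p i ≤ b) {N : ℕ}
    (χ : DirichletCharacter ℂ N) {s : ℂ} (hs : (i : ℝ) / 2 + 1 < s.re) :
    (Multipliable fun p : Nat.Primes => if p ∈ S then (1 : ℂ) else twistEulerFactor X i χ p s) ∧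
      schemeTwistL X i S χ s ≠ 0 := by
  set ε : ℝ := s.re - ((i : ℝ) / 2 + 1) with hε
  have hε0 : 0 < ε := by rw [hε]; linarith
  have hsε : s = ((i : ℂ) / 2 + 1) + ε + s.im * I := by
    apply Complex.ext
    · simp [hε]
    · simp
  have hIone : ∀ p : Nat.Primes, ‖((p : ℕ) : ℂ) ^ (-((s.im : ℝ) * I))‖ = 1 := by
    intro p
    rw [norm_prime_cpow]
    simp
  obtain ⟨h1, -⟩ := summable_and_bound (Good := fun p => p ∉ S) hε0
    (fun p => logX X i χ p (((i : ℂ) / 2 + 1) + ε + s.im * I))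
    (fun p => χ p * tX X i S p * ((p : ℕ) : ℂ) ^ (-((s.im : ℝ) * I))) (C := b) (K := b)
    (fun p => by
      rw [norm_mul, norm_mul, hIone, mul_one]
      calc ‖χ p‖ * ‖tX X i S p‖ ≤ 1 * b :=
            mul_le_mul (χ.norm_le_one _) (norm_tX_le hb p) (norm_nonneg _) zero_le_one
        _ = b := one_mul _)
    (fun p hp => by
      have : tX X i S p = 0 := by rw [tX, if_pos (not_not.1 hp)]
      simp only [this, mul_zero, zero_mul])
    (fun p hp => logX_sub_le χ p hp hb s.im hε0)
  constructor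
  · have h2 := h1.hasSum.cexp.multipliable
    refine h2.congr fun p => ?_
    rw [Function.comp_apply]
    by_cases hp : p ∈ S
    · simp [hp]
    · rw [if_neg hp, if_pos hp, exp_logX χ (by rw [← hsε]; exact hs.le), ← hsε]
  · rw [hsε]
    exact (nearX hb (⟨⟨N, χ⟩, s.im⟩ : Pair) hε0).1

end Pool.Agent.H304R6
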