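import Pool.Agent.H341R2.SchemeDefs

/-! `L(Hⁱ(X) ⊗ χ, s)` for a scheme `X` over `ℤ` and a Dirichlet character `χ`. -/

set_option autoImplicit false

namespace Pool.Agent.H304R6

open AlgebraicGeometry Pool.Agent.H341R2

/-- the Euler factor `det(1 - χ(p) Frob p^{-s} | Hⁱ)⁻¹ = ∏ (1 - χ(p) β p^{-s})^{-mult(β)}`, the
product over the Frobenius eigenvalues `β` of weight `i` -/
noncomputable def twistEulerFactor (X : Scheme.{0}) (i : ℕ) {N : ℕ} (χ : DirichletCharacter ℂ N)
    (p : Nat.Primes) (s : ℂ) : ℂ :=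
  ∏ β ∈ weightEigenvalues X p i,
    (1 - χ p * β * ((p : ℕ) : ℂ) ^ (-s)) ^ (-((-1) ^ i * frobeniusDivisor X p β))

open Classical in
/-- the `i`-th L-function of `X` twisted by `χ`, without the Euler factors at `p ∈ S` -/
noncomputable def schemeTwistL (X : Scheme.{0}) (i : ℕ) (S : Finset Nat.Primes) {N : ℕ}
    (χ : DirichletCharacter ℂ N) (s : ℂ) : ℂ :=
  ∏' p : Nat.Primes, if p ∈ S then 1 else twistEulerFactor X i χ p s

end Pool.Agent.H304R6
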