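import Pool.Agent.H304R6.Conv

set_option autoImplicit false

namespace Pool.Agent.H304R6

open Complex Filter Topology ComplexConjugate Polynomial
open Pool.Agent.H341R2

open Classical in
/-- the set `T` of primes has upper logarithmic density at most `δ`:
`∑_{p ∈ T} p^{-1-ε} ≤ (δ + d) log(1/ε)` for all small `ε > 0`, for each `d > 0` -/
def LogDensityLe (T : Set Nat.Primes) (δ : ℝ) : Prop :=
  ∀ d : ℝ, 0 < d → ∀ᶠ ε : ℝ in nhdsWithin 0 (Set.Ioi 0),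
    ∑' p : Nat.Primes, (if p ∈ T then (p : ℝ) ^ (-(1 + ε)) else 0) ≤
      (δ + d) * Real.log (1 / ε)

theorem LogDensityLe.nonneg {T : Set Nat.Primes} {δ : ℝ} (hT : LogDensityLe T δ) : 0 ≤ δ := by
  classical
  by_contra hcon
  push Not at hcon
  have h1 := hT (-δ / 2) (by linarith)
  obtain ⟨ε, h2, h3⟩ := (h1.and (log_inv_tendsto.eventually_gt_atTop 0)).exists
  have h4 : 0 ≤ ∑' p : Nat.Primes, (if p ∈ T then (p : ℝ) ^ (-(1 + ε)) else 0) := by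
    refine tsum_nonneg fun p => ?_
    split_ifs
    · positivity
    · exact le_rfl
  have h5 : (δ + -δ / 2) * Real.log (1 / ε) < 0 := by
    have : δ + -δ / 2 < 0 := by linarith
    exact mul_neg_of_neg_of_pos this h3
  linarith

/-- conversion of a Bessel inequality in terms of `lam` into one in terms of `log (1/ε)` -/
theorem convert_bessel {κ : Type*} (F : Finset κ) (x y : κ → ℝ → ℝ) {R D : ℝ} (hR0 : 0 ≤ R)
    (hxy : ∀ ε : ℝ, 0 < ε → ∀ k ∈ F, |y k ε - x k ε| ≤ D)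
    (hx : ∀ δ : ℝ, 0 < δ → ∀ᶠ ε : ℝ in 𝓝[>] 0, ∑ k ∈ F, (x k ε) ^ 2 ≤ (R + δ) * (lam ε) ^ 2)
    {δ : ℝ} (hδ : 0 < δ) :
    ∀ᶠ ε : ℝ in 𝓝[>] 0, ∑ k ∈ F, (y k ε) ^ 2 ≤ (R + δ) * (Real.log (1 / ε)) ^ 2 := by
  obtain ⟨C, hC⟩ := lam_bounded
  set η : ℝ := δ / (4 * (R + δ)) with hη
  have hη0 : 0 < η := by positivity
  have hη1 : (1 + η) * (R + δ / 4) ≤ R + δ / 2 := by
    have h1 : η * (R + δ / 4) ≤ δ / 4 := by
      rw [hη, div_mul_eq_mul_div, div_le_iff₀ (by positivity)]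
      nlinarith
    linarith
  have hsq : ∀ x y : ℝ, |y - x| ≤ D → y ^ 2 ≤ (1 + η) * x ^ 2 + (1 + 1 / η) * D ^ 2 := by
    intro x y h
    have h1 : (y - x) ^ 2 ≤ D ^ 2 := by
      rw [← sq_abs (y - x)]
      exact pow_le_pow_left₀ (abs_nonneg _) h 2
    have h2 : 2 * x * (y - x) ≤ η * x ^ 2 + (1 / η) * (y - x) ^ 2 := by
      have h3 : 0 ≤ (η * x - (y - x)) ^ 2 / η := by positivity
      have h4 : (η * x - (y - x)) ^ 2 / η = η * x ^ 2 - 2 * x * (y - x) + (1 / η) * (y - x) ^ 2 := by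
        field_simp
        ring
      linarith
    have h5 : (1 / η) * (y - x) ^ 2 ≤ (1 / η) * D ^ 2 := by gcongr
    nlinarith
  set B : ℝ := F.card * ((1 + 1 / η) * D ^ 2) with hB
  have hB0 : 0 ≤ B := by positivity
  have hconv : ∀ᶠ ε : ℝ in 𝓝[>] 0,
      (R + δ / 2) * (lam ε) ^ 2 + B ≤ (R + δ) * (Real.log (1 / ε)) ^ 2 := by
    have h0 : 0 < R + δ / 2 := by positivity
    filter_upwards [hC, log_inv_tendsto.eventually_ge_atTop
      (max 1 (((R + δ / 2) * (2 * |C| + C ^ 2) + B) * 2 / δ))] with ε h1 h2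
    have h3 : (1 : ℝ) ≤ Real.log (1 / ε) := (le_max_left _ _).trans h2
    have h4 := (le_max_right _ _).trans h2
    set L := Real.log (1 / ε) with hL
    have h5 : lam ε ≤ L + |C| := by
      rw [hL, one_div, Real.log_inv]
      have := (abs_le.1 h1).2
      linarith [le_abs_self C]
    have h6 : 0 ≤ lam ε := tsum_nonneg fun p => w_nonneg ε p
    have h7 : (lam ε) ^ 2 ≤ (L + |C|) ^ 2 := pow_le_pow_left₀ h6 h5 2
    have h8 : (L + |C|) ^ 2 ≤ L ^ 2 + (2 * |C| + C ^ 2) * L := by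
      have e1 : (L + |C|) ^ 2 = L ^ 2 + 2 * |C| * L + C ^ 2 := by
        rw [← sq_abs C]; ring
      rw [e1]
      nlinarith [mul_le_mul_of_nonneg_left h3 (sq_nonneg C)]
    rw [div_le_iff₀ hδ] at h4
    have h9 : (R + δ / 2) * (lam ε) ^ 2 ≤ (R + δ / 2) * (L ^ 2 + (2 * |C| + C ^ 2) * L) := by
      gcongr
      exact h7.trans h8
    have h10 : B ≤ B * L := le_mul_of_one_le_right hB0 h3
    have h11 : ((R + δ / 2) * (2 * |C| + C ^ 2) + B) * L ≤ δ / 2 * L * L := by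
      have : ((R + δ / 2) * (2 * |C| + C ^ 2) + B) ≤ δ / 2 * L := by linarith
      exact mul_le_mul_of_nonneg_right this (by linarith)
    nlinarith
  filter_upwards [hx (δ / 4) (by positivity), hconv, self_mem_nhdsWithin] with ε h1 h2 h3
  have hε : (0 : ℝ) < ε := h3
  calc ∑ k ∈ F, (y k ε) ^ 2
      ≤ ∑ k ∈ F, ((1 + η) * (x k ε) ^ 2 + (1 + 1 / η) * D ^ 2) :=
        Finset.sum_le_sum fun k hk => hsq _ _ (hxy ε hε k hk)
    _ = (1 + η) * (∑ k ∈ F, (x k ε) ^ 2) + B := by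
        rw [Finset.sum_add_distrib, ← Finset.mul_sum, Finset.sum_const, nsmul_eq_mul]
    _ ≤ (1 + η) * ((R + δ / 4) * (lam ε) ^ 2) + B := by gcongr
    _ ≤ (R + δ / 2) * (lam ε) ^ 2 + B := by
        rw [← mul_assoc]
        gcongr
    _ ≤ _ := h2

variable {G : Type*} [Group G] {n : ℕ} {ρ : G →* GL (Fin n) ℂ} {A : Nat.Primes → G}
  {G' : Type*} [Group G'] {n' : ℕ} {ρ' : G' →* GL (Fin n') ℂ} {A' : Nat.Primes → G'}
  {S : Finset Nat.Primes} {w : ℝ}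

theorem tr_eq_of_charpoly {p : Nat.Primes} (hp : p ∉ S)
    (h : (mat ρ A p).charpoly = (mat ρ' A' p).charpoly) : tr ρ A S w p = tr ρ' A' S w p := by
  classical
  rw [tr, tr, if_neg hp, if_neg hp, Matrix.trace_eq_sum_roots_charpoly,
    Matrix.trace_eq_sum_roots_charpoly, h]

theorem abs_term_le (hA : ∀ p ∉ S, ∀ α ∈ (mat ρ A p).charpoly.roots, ‖α‖ ≤ (p : ℝ) ^ w)
    {N : ℕ} (χ : DirichletCharacter ℂ N) (τ : ℝ) (p : Nat.Primes) :
    |(χ p * tr ρ A S w p * ((p : ℕ) : ℂ) ^ (-(τ * I))).re| ≤ n := by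
  have hIone : ‖((p : ℕ) : ℂ) ^ (-(τ * I))‖ = 1 := by
    rw [norm_prime_cpow]
    simp
  refine (Complex.abs_re_le_norm _).trans ?_
  rw [norm_mul, norm_mul, hIone, mul_one]
  calc ‖χ p‖ * ‖tr ρ A S w p‖ ≤ 1 * n :=
        mul_le_mul (χ.norm_le_one _) (norm_tr_le hA p) (norm_nonneg _) zero_le_one
    _ = n := one_mul _

theorem xx_sub (hA : ∀ p ∉ S, ∀ α ∈ (mat ρ A p).charpoly.roots, ‖α‖ ≤ (p : ℝ) ^ w)
    (hA' : ∀ p ∉ S, ∀ α ∈ (mat ρ' A' p).charpoly.roots, ‖α‖ ≤ (p : ℝ) ^ w)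
    {N : ℕ} (χ : DirichletCharacter ℂ N) (τ : ℝ) {ε : ℝ} (hε0 : 0 < ε) :
    xx ρ A S w χ τ ε - xx ρ' A' S w χ τ ε =
      E ε fun p => ((tr ρ A S w p - tr ρ' A' S w p) *
        conj (conj (χ ((p : ℕ) : ZMod N)) * ((p : ℕ) : ℂ) ^ (τ * I))).re := by
  have h1 := summable_E hε0 (abs_term_le hA χ τ)
  have h2 := summable_E hε0 (abs_term_le hA' χ τ)
  rw [xx, xx, E, E, E, ← h1.tsum_sub h2]
  refine tsum_congr fun p => ?_
  have h0 : ((p : ℕ) : ℂ) ≠ 0 := by exact_mod_cast p.2.ne_zero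
  have hc : conj (((p : ℕ) : ℂ) ^ ((τ : ℂ) * I)) = ((p : ℕ) : ℂ) ^ (-(τ * I)) := by
    rw [Complex.cpow_def_of_ne_zero h0, Complex.cpow_def_of_ne_zero h0, ← Complex.exp_conj]
    congr 1
    rw [map_mul, map_mul, Complex.conj_I, Complex.conj_ofReal, ← Complex.natCast_log,
      Complex.conj_ofReal]
    ring
  have h3 : (tr ρ A S w p - tr ρ' A' S w p) *
        conj (conj (χ ((p : ℕ) : ZMod N)) * ((p : ℕ) : ℂ) ^ (τ * I)) =
      χ p * tr ρ A S w p * ((p : ℕ) : ℂ) ^ (-(τ * I)) -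
        χ p * tr ρ' A' S w p * ((p : ℕ) : ℂ) ^ (-(τ * I)) := by
    rw [map_mul, Complex.conj_conj, hc]
    ring
  rw [h3, Complex.sub_re, sub_mul]

/-- Bessel's inequality for the difference of the means of two systems that agree outside a set
of primes of small density. -/
theorem diff_bessel (hA : ∀ p ∉ S, ∀ α ∈ (mat ρ A p).charpoly.roots, ‖α‖ ≤ (p : ℝ) ^ w)
    (hA' : ∀ p ∉ S, ∀ α ∈ (mat ρ' A' p).charpoly.roots, ‖α‖ ≤ (p : ℝ) ^ w)
    {T : Set Nat.Primes} {δ : ℝ} (hT : LogDensityLe T δ)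
    (hAA : ∀ p ∉ S, p ∉ T → (mat ρ A p).charpoly = (mat ρ' A' p).charpoly)
    (F : Finset Pair) (hF : ∀ k ∈ F, k.1.1 ≠ 0 ∧ k.1.2.IsPrimitive) {d : ℝ} (hd : 0 < d) :
    ∀ᶠ ε : ℝ in 𝓝[>] 0,
      ∑ k ∈ F, (xx ρ A S w k.1.2 k.2 ε - xx ρ' A' S w k.1.2 k.2 ε) ^ 2 ≤
        (((n : ℝ) + n') ^ 2 * δ + d) * (lam ε) ^ 2 := by
  classical
  have hδ0 := hT.nonneg
  set b : ℝ := (n : ℝ) + n' with hb
  have hb0 : 0 ≤ b := by positivity
  set t : Nat.Primes → ℂ := fun p => tr ρ A S w p - tr ρ' A' S w p with ht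
  have htb : ∀ p, ‖t p‖ ≤ b := fun p =>
    (norm_sub_le _ _).trans (add_le_add (norm_tr_le hA p) (norm_tr_le hA' p))
  have ht0 : ∀ p, p ∉ T → t p = 0 := by
    intro p hp
    show tr ρ A S w p - tr ρ' A' S w p = 0
    by_cases hS : p ∈ S
    · rw [tr, tr, if_pos hS, if_pos hS, sub_zero]
    · rw [tr_eq_of_charpoly hS (hAA p hS hp), sub_self]
  have hR' : ∀ d : ℝ, 0 < d → ∀ᶠ ε : ℝ in 𝓝[>] 0,
      E ε (fun p => ‖t p‖ ^ 2) ≤ (b ^ 2 * δ + d) * lam ε := by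
    intro d hd
    obtain ⟨C, hC⟩ := lam_bounded
    set d' : ℝ := d / (2 * (b ^ 2 + 1)) with hd'
    have hd'0 : 0 < d' := by positivity
    have hd'1 : b ^ 2 * d' ≤ d / 2 := by
      rw [hd', ← mul_div_assoc, div_le_iff₀ (by positivity)]
      nlinarith
    filter_upwards [hC, hT d' hd'0,
      lam_tendsto.eventually_ge_atTop ((b ^ 2 * δ + d / 2) * |C| * 2 / d), self_mem_nhdsWithin]
      with ε h1 h2 h3 h4
    have hε : (0 : ℝ) < ε := h4
    have h5 : Real.log (1 / ε) ≤ lam ε + |C| := by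
      rw [one_div, Real.log_inv]
      have := (abs_le.1 h1).1
      linarith [le_abs_self C]
    have h6 : E ε (fun p => ‖t p‖ ^ 2) ≤
        b ^ 2 * ∑' p : Nat.Primes, (if p ∈ T then (p : ℝ) ^ (-(1 + ε)) else 0) := by
      rw [E, ← tsum_mul_left]
      have hs0 := summable_prime_rpow (r := -(1 + ε)) (by linarith)
      refine Summable.tsum_le_tsum (fun p => ?_) ?_ ?_
      · by_cases hp : p ∈ T
        · rw [if_pos hp]
          exact mul_le_mul_of_nonneg_right (pow_le_pow_left₀ (norm_nonneg _) (htb p) 2)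
            (w_nonneg ε p)
        · rw [if_neg hp, ht0 p hp]
          simp
      · refine summable_E hε (B := b ^ 2) fun p => ?_
        rw [abs_of_nonneg (sq_nonneg _)]
        exact pow_le_pow_left₀ (norm_nonneg _) (htb p) 2
      · refine Summable.mul_left _ ?_
        refine Summable.of_nonneg_of_le (fun p => ?_) (fun p => ?_) hs0
        · split_ifs
          · positivity
          · exact le_rfl
        · split_ifs
          · exact le_rfl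
          · positivity
    rw [div_le_iff₀ hd] at h3
    have hl0 : 0 ≤ lam ε := tsum_nonneg fun p => w_nonneg ε p
    have h8 : (b ^ 2 * (δ + d')) ≤ b ^ 2 * δ + d / 2 := by linarith
    have h9 : 0 ≤ b ^ 2 * (δ + d') := by positivity
    calc E ε (fun p => ‖t p‖ ^ 2)
        ≤ b ^ 2 * ∑' p : Nat.Primes, (if p ∈ T then (p : ℝ) ^ (-(1 + ε)) else 0) := h6
      _ ≤ b ^ 2 * ((δ + d') * Real.log (1 / ε)) := by gcongr
      _ = (b ^ 2 * (δ + d')) * Real.log (1 / ε) := by ring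
      _ ≤ (b ^ 2 * (δ + d')) * (lam ε + |C|) := by gcongr
      _ ≤ (b ^ 2 * δ + d / 2) * (lam ε + |C|) := by gcongr
      _ ≤ (b ^ 2 * δ + d) * lam ε := by linarith
  have h := bessel_near F t
    (fun (k : Pair) p => conj (k.1.2 ((p : ℕ) : ZMod k.1.1)) * ((p : ℕ) : ℂ) ^ (k.2 * I)) b
    (b ^ 2 * δ) htb
    (fun k p => by
      rw [norm_mul, Complex.norm_conj]
      have h1 : ‖((p : ℕ) : ℂ) ^ ((k.2 : ℂ) * I)‖ = 1 := by
        rw [Complex.norm_natCast_cpow_of_pos p.2.pos]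
        simp
      rw [h1, mul_one]
      exact k.1.2.norm_le_one _)
    hR' (fun k hk l hl hkl => E_orth (hF k hk).1 (hF l hl).1 (hF k hk).2 (hF l hl).2 hkl) hd
  filter_upwards [h, self_mem_nhdsWithin] with ε hε h0
  have hε0 : (0 : ℝ) < ε := h0
  refine le_trans (le_of_eq ?_) hε
  refine Finset.sum_congr rfl fun k _ => ?_
  rw [xx_sub hA hA' k.1.2 k.2 hε0]

/-- the ratio of two systems near the edge -/
theorem ratio_bessel (hA : ∀ p ∉ S, ∀ α ∈ (mat ρ A p).charpoly.roots, ‖α‖ ≤ (p : ℝ) ^ w)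
    (hA' : ∀ p ∉ S, ∀ α ∈ (mat ρ' A' p).charpoly.roots, ‖α‖ ≤ (p : ℝ) ^ w)
    {T : Set Nat.Primes} {δ : ℝ} (hT : LogDensityLe T δ)
    (hAA : ∀ p ∉ S, p ∉ T → (mat ρ A p).charpoly = (mat ρ' A' p).charpoly)
    (F : Finset Pair) (hF : ∀ k ∈ F, k.1.1 ≠ 0 ∧ k.1.2.IsPrimitive) {d : ℝ} (hd : 0 < d) :
    ∀ᶠ ε : ℝ in 𝓝[>] 0,
      ∑ k ∈ F, (Real.log ‖twistL ρ A S k.1.2 (1 + w + ε + k.2 * I)‖ -
        Real.log ‖twistL ρ' A' S k.1.2 (1 + w + ε + k.2 * I)‖) ^ 2 ≤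
        (((n : ℝ) + n') ^ 2 * δ + d) * (Real.log (1 / ε)) ^ 2 := by
  have hδ0 := hT.nonneg
  refine convert_bessel F
    (fun k ε => xx ρ A S w k.1.2 k.2 ε - xx ρ' A' S w k.1.2 k.2 ε)
    (fun k ε => Real.log ‖twistL ρ A S k.1.2 (1 + w + ε + k.2 * I)‖ -
        Real.log ‖twistL ρ' A' S k.1.2 (1 + w + ε + k.2 * I)‖)
    (R := ((n : ℝ) + n') ^ 2 * δ) (D := n * K2 + n' * K2) (by positivity) ?_
    (fun d hd => diff_bessel hA hA' hT hAA F hF hd) hd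
  intro ε hε k _
  have h1 := (near hA k.1.2 k.2 hε).2
  have h2 := (near hA' k.1.2 k.2 hε).2
  rw [abs_le] at h1 h2 ⊢
  constructor <;> linarith [h1.1, h1.2, h2.1, h2.2]

end Pool.Agent.H304R6
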